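import Pool.Agent.H68R3.BB.Stmts

/-! Task TaskArea of the project H68-BB (helper138). -/

set_option autoImplicit false

open MeasureTheory Topology Filter Set Metric
open scoped ENNReal NNReal ContDiff

namespace Pool.Agent.H68R3.BB

theorem taskArea : TaskArea := by
  intro G e ρ L hG hρ hL he hGρ hsec
  set u : Circle := ⟨e, by simp [Submonoid.unitSphere, he]⟩ with hu
  have hue : (u : ℂ) = e := rfl
  set F : ℝ × ℝ → ℂ := fun p => e * ((p.1 : ℂ) + (p.2 : ℂ) * Complex.I) with hF
  have hFmp : MeasurePreserving F volume volume := by
    have h1 : MeasurePreserving Complex.measurableEquivRealProd.symm volume volume :=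
      Complex.volume_preserving_equiv_real_prod.symm
    have h2 : MeasurePreserving (rotation u) volume volume := (rotation u).measurePreserving
    have h3 := h2.comp h1
    have h4 : F = (rotation u) ∘ Complex.measurableEquivRealProd.symm := by
      funext p
      simp only [Function.comp_apply, rotation_apply, hue, hF]
      congr 1
      apply Complex.ext <;> simp
    rw [h4]
    exact h3
  have hFc : Continuous F := by
    rw [hF]; fun_prop
  set H : Set (ℝ × ℝ) := F ⁻¹' G with hH
  have hHm : MeasurableSet H := (hG.preimage hFc).measurableSet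
  have hvol : volume G = volume H := (hFmp.measure_preimage hG.measurableSet.nullMeasurableSet).symm
  have hsub : ∀ y : ℝ, volume ((fun x : ℝ => (x, y)) ⁻¹' H) ≤
      (Ioo (-ρ) ρ).indicator (fun _ => ENNReal.ofReal L) y := by
    intro y
    by_cases hy : y ∈ Ioo (-ρ) ρ
    · rw [indicator_of_mem hy]
      refine (Real.volume_le_diam _).trans ?_
      apply Metric.ediam_le_of_forall_dist_le
      intro x hx x' hx'
      have h1 := hsec _ hx _ hx' (x' - x) (by
        simp only [hF]; push_cast; ring)
      rw [dist_comm, Real.dist_eq]
      exact h1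
    · rw [indicator_of_notMem hy]
      have : ((fun x : ℝ => (x, y)) ⁻¹' H) = ∅ := by
        rw [eq_empty_iff_forall_notMem]
        intro x hx
        apply hy
        have h1 : F (x, y) ∈ ball (0 : ℂ) ρ := hGρ hx
        rw [mem_ball_zero_iff, hF] at h1
        simp only [norm_mul, he, one_mul] at h1
        have h2 := Complex.abs_im_le_norm ((x : ℂ) + (y : ℂ) * Complex.I)
        simp at h2
        have h3 : |y| < ρ := lt_of_le_of_lt h2 h1
        exact abs_lt.mp h3
      rw [this, measure_empty]
  rw [hvol]
  have h5 : (volume : Measure (ℝ × ℝ)) H = ∫⁻ y, volume ((fun x : ℝ => (x, y)) ⁻¹' H) :=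
    Measure.prod_apply_symm hHm
  rw [h5]
  refine (lintegral_mono hsub).trans ?_
  rw [lintegral_indicator measurableSet_Ioo, setLIntegral_const, Real.volume_Ioo,
    ← ENNReal.ofReal_mul hL.le]
  apply le_of_eq
  congr 1
  ring

end Pool.Agent.H68R3.BB
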