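import Pool.Agent.H68R3.BB.Stmts

/-!
# Project H68-BB: assembly
-/

set_option autoImplicit false

open MeasureTheory Topology Filter Set Metric
open scoped ENNReal NNReal ContDiff

namespace Pool.Agent.H68R3.BB

variable {n : ℕ}

theorem isOpen_eball (a : Fin n → ℂ) (R : ℝ) : IsOpen (eball a R) := by
  unfold eball
  exact isOpen_lt (by fun_prop) continuous_const

theorem eball_subset (a : Fin n → ℂ) {R : ℝ} (hR : 0 < R) : eball a R ⊆ closedBall a R := by
  intro z hz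
  rw [mem_closedBall, dist_eq_norm, pi_norm_le_iff_of_nonneg hR.le]
  intro i
  have h1 : ‖z i - a i‖ ^ 2 ≤ ∑ i, ‖z i - a i‖ ^ 2 :=
    Finset.single_le_sum (f := fun i => ‖z i - a i‖ ^ 2) (fun i _ => by positivity)
      (Finset.mem_univ i)
  have h2 : ‖z i - a i‖ ^ 2 < R ^ 2 := h1.trans_lt hz
  exact (abs_le_of_sq_le_sq h2.le hR.le).trans' (le_abs_self _)

theorem phi_zero (t N : Fin n → ℂ) (q : ℂ) (τ : (Fin n → ℂ) → ℂ) (z : Fin n → ℂ) :
    phi t N q τ z 0 = z := by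
  simp [phi]

theorem phi_diff (t N : Fin n → ℂ) (q : ℂ) (τ : (Fin n → ℂ) → ℂ) (z : Fin n → ℂ) :
    Differentiable ℂ (phi t N q τ z) := by
  unfold phi
  fun_prop

theorem phi_sub (t N : Fin n → ℂ) (q : ℂ) (τ : (Fin n → ℂ) → ℂ) (z z' : Fin n → ℂ) (ζ : ℂ) :
    phi t N q τ z ζ - phi t N q τ z' ζ = (z - z') + ((τ z - τ z') * ζ) • N := by
  unfold phi
  ext i
  simp
  ring

/-- The estimate on all shells gives smallness near `p`. -/
theorem small_near (hSh : TaskShell) (hW : TaskWidth) (hSu : TaskSum)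
    (hL : TaskLocal) (hM : TaskMid) (hI : TaskInner)
    {Ω U : Set (Fin n → ℂ)} {r : (Fin n → ℂ) → ℝ} {p a t : Fin n → ℂ} {R : ℝ}
    (hU : IsOpen U) (hpU : p ∈ U) (hr : ContDiffOn ℝ ∞ r U) (hr0 : r p = 0)
    (hΩ : IsOpen Ω) (hdr : fderiv ℝ r p ≠ 0) (hΩU : Ω ∩ U = {z | z ∈ U ∧ r z < 0})
    (hR : 0 < R) (hsub : eball a R ⊆ Ω) (ht : ‖t‖ = 1) (ht1 : fderiv ℝ r p t = 0)
    (ht2 : fderiv ℝ r p (Complex.I • t) = 0) (hlev : levi r p t ≤ 0) :
    ∀ ε : ℝ, 0 < ε → ∃ δ : ℝ, 0 < δ ∧ ∀ f : (Fin n → ℂ) → ℂ, DifferentiableOn ℂ f Ω →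
      ∫⁻ z in eball a R ∩ ball p δ, ‖f z‖ₑ ^ 2 ≤
        ENNReal.ofReal ε * ∫⁻ z in Ω, ‖f z‖ₑ ^ 2 := by
  obtain ⟨N, q, τ, K₁, δ₁, hK₁, hδ₁, hδ₁1, hN, hq, hτp, hB₁, hτ, hloc⟩ :=
    hL n r U p t hU hpU hr hdr ht1 ht2
  obtain ⟨K₂, δ₂, hK₂, hδ₂, hδ₂1, hB₂, hhess, hrK, hmid⟩ := hM n r U p hU hpU hr hr0
  obtain ⟨c, δ₃, hc, hδ₃, hB₃, hinner⟩ := hI n r Ω U p a R hU hpU hr hdr hR hsub hΩU
  -- a direction with nonpositive second derivative
  obtain ⟨e, he, hhe⟩ : ∃ e : ℂ, ‖e‖ = 1 ∧ hess r p (e • t) (e • t) ≤ 0 := by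
    by_cases h : hess r p t t ≤ 0
    · exact ⟨1, by simp, by simpa using h⟩
    · refine ⟨Complex.I, by simp, ?_⟩
      unfold levi at hlev
      push Not at h
      linarith
  set K := max K₁ K₂ with hKdef
  have hKK₁ : K₁ ≤ K := le_max_left _ _
  have hKK₂ : K₂ ≤ K := le_max_right _ _
  have hK1 : 1 ≤ K := hK₁.trans hKK₁
  have hK0 : 0 < K := by linarith
  set δ := min δ₁ (min δ₂ δ₃) with hδdef
  have hδ : 0 < δ := lt_min hδ₁ (lt_min hδ₂ hδ₃)
  have hd1 : δ ≤ δ₁ := min_le_left _ _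
  have hd2 : δ ≤ δ₂ := (min_le_right _ _).trans (min_le_left _ _)
  have hd3 : δ ≤ δ₃ := (min_le_right _ _).trans (min_le_right _ _)
  have hδ1 : δ ≤ 1 := hd1.trans hδ₁1
  set κ := 1 / (4 * K) with hκdef
  have hκ : 0 < κ := by positivity
  have hKκ : K * κ = 1 / 4 := by rw [hκdef]; field_simp
  have hκ1 : κ ≤ 1 / 4 := by
    rw [← hKκ]
    nlinarith
  have hτK : ∀ z ∈ ball p δ, ∀ z' ∈ ball p δ, ‖τ z - τ z'‖ ≤ K * ‖z - z'‖ := by
    intro z hz z' hz'
    refine (hτ z (ball_subset_ball hd1 hz) z' (ball_subset_ball hd1 hz')).trans ?_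
    gcongr
  have hhK : ∀ u v : Fin n → ℂ, |hess r p u v| ≤ K * ‖u‖ * ‖v‖ := by
    intro u v
    refine (hhess u v).trans ?_
    gcongr
  obtain ⟨L, hL0, hwidth⟩ := hW n r p t N a q e τ R K c δ κ hK1 hc hδ hδ1 hκ hR ht he
    (hN.trans hKK₁) (hq.trans hKK₁) hτp hτK hhK
    (fun z hz z' hz' => (hmid z (ball_subset_ball hd2 hz) z' (ball_subset_ball hd2 hz')).trans
      (by gcongr))
    (fun z hz => hinner z ⟨hz.1, ball_subset_ball hd3 hz.2⟩) hhe
  -- the constant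
  set C := max (5 + |levi r p t|) (16 ^ n * (2 * L / Real.pi)) with hCdef
  have hC5 : 5 + |levi r p t| ≤ C := le_max_left _ _
  have hCL : 16 ^ n * (2 * L / Real.pi) ≤ C := le_max_right _ _
  have hC1 : 1 ≤ C := by
    have := abs_nonneg (levi r p t)
    linarith
  intro ε hε
  -- choice of `m`
  obtain ⟨m, hm⟩ : ∃ m : ℕ, 20 * C ^ 2 * (m + 1) / 2 ^ m ≤ ε := by
    have h1 : Tendsto (fun m : ℕ => 20 * C ^ 2 * ((m : ℝ) + 1) / 2 ^ m) atTop (𝓝 0) := by
      have h2 : Tendsto (fun m : ℕ => (m : ℝ) * (1 / 2 : ℝ) ^ m) atTop (𝓝 0) := by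
        simpa using tendsto_self_mul_const_pow_of_lt_one (r := (1 / 2 : ℝ)) (by norm_num)
          (by norm_num)
      have h3 : Tendsto (fun m : ℕ => (1 / 2 : ℝ) ^ m) atTop (𝓝 0) :=
        tendsto_pow_atTop_nhds_zero_of_lt_one (by norm_num) (by norm_num)
      have h4 := (h2.add h3).const_mul (20 * C ^ 2)
      simp only [add_zero, mul_zero] at h4
      refine h4.congr fun m => ?_
      rw [one_div, inv_pow]
      field_simp
    exact ((h1.eventually_le_const hε).exists)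
  set M : ℝ := 2 ^ m with hMdef
  have hM1 : 1 ≤ M := one_le_pow₀ (by norm_num)
  have hM0 : 0 < M := by linarith
  obtain ⟨δ', hδ', hδ'δ, hwid⟩ := hwidth M hM1
  -- choice of the radius
  set η := min (δ / 2) (min (1 / (2 * K ^ 2)) (1 / (8 * K * M ^ 2))) with hηdef
  have hη : 0 < η := by
    refine lt_min (by positivity) (lt_min (by positivity) (by positivity))
  have hη1 : η ≤ δ / 2 := min_le_left _ _
  have hη2 : η ≤ 1 / (2 * K ^ 2) := (min_le_right _ _).trans (min_le_left _ _)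
  have hη3 : η ≤ 1 / (8 * K * M ^ 2) := (min_le_right _ _).trans (min_le_right _ _)
  set δ'' := min η (min (δ' / K) (η ^ 2 / (K * M ^ 2))) with hδ''def
  have hδ'' : 0 < δ'' := by
    refine lt_min hη (lt_min (by positivity) (by positivity))
  have hdd1 : δ'' ≤ η := min_le_left _ _
  have hdd2 : δ'' ≤ δ' / K := (min_le_right _ _).trans (min_le_left _ _)
  have hdd3 : δ'' ≤ η ^ 2 / (K * M ^ 2) := (min_le_right _ _).trans (min_le_right _ _)
  have hdd4 : K * δ'' ≤ δ' := by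
    rw [le_div_iff₀ hK0] at hdd2
    linarith
  have hdd5 : δ'' ≤ δ' := by nlinarith
  have hdd6 : δ'' < δ := by linarith
  have hdd7 : M * Real.sqrt (K * δ'') ≤ η := by
    have h1 : K * δ'' ≤ (η / M) ^ 2 := by
      rw [div_pow]
      rw [le_div_iff₀ (by positivity)] at hdd3 ⊢
      nlinarith
    have h2 : Real.sqrt (K * δ'') ≤ η / M := by
      rw [← Real.sqrt_sq (by positivity : 0 ≤ η / M)]
      exact Real.sqrt_le_sqrt h1
    rw [le_div_iff₀ hM0] at h2
    linarith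
  have hBU : ball p δ'' ⊆ U := (ball_subset_ball (hdd6.le.trans hd1)).trans hB₁
  refine ⟨δ'', hδ'', fun f hf => ?_⟩
  have hrc : ContinuousOn r U := hr.continuousOn
  have hopen : ∀ (W : Set (Fin n → ℂ)), IsOpen W → W ⊆ U → ∀ x y : ℝ,
      IsOpen (W ∩ {z | x < - r z ∧ - r z < y}) := by
    intro W hW hWU x y
    have h := (hrc.neg.mono hWU).isOpen_inter_preimage hW (isOpen_Ioo (a := x) (b := y))
    exact h
  have hBopen : IsOpen (Ω ∩ U) := hΩ.inter hU
  have hAopen : IsOpen (eball a R ∩ ball p δ'') := (isOpen_eball a R).inter isOpen_ball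
  have hAU : eball a R ∩ ball p δ'' ⊆ U := fun z hz => hBU hz.2
  have key := hSu (Fin n → ℂ) volume (eball a R ∩ ball p δ'') (Ω ∩ U) (fun z => - r z)
    (fun z => ‖f z‖ₑ ^ 2) C m hC1 ?_ hBopen.measurableSet ?_ ?_ ?_ ?_
  · refine key.trans ?_
    gcongr
    exact inter_subset_left
  · intro z hz
    have h1 : z ∈ Ω ∩ U := ⟨hsub hz.1, hAU hz⟩
    rw [hΩU] at h1
    simpa using h1.2
  · have h1 : AEMeasurable f (volume.restrict (Ω ∩ U)) :=
      (hf.continuousOn.mono inter_subset_left).aemeasurable hBopen.measurableSet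
    exact h1.enorm.pow_const 2
  · intro x y _
    exact (hopen _ hAopen hAU x y).measurableSet
  · intro x y _
    exact (hopen _ hBopen inter_subset_right x y).measurableSet
  · intro d hd
    -- facts on the points of the shell
    have hdz : ∀ z ∈ (eball a R ∩ ball p δ'') ∩ {z | d < - r z ∧ - r z < 4 * d},
        d ≤ δ' ∧ M * Real.sqrt d < η := by
      intro z hz
      have h1 : ‖z - p‖ < δ'' := by simpa [dist_eq_norm] using hz.1.2
      have h2 : |r z| ≤ K₂ * ‖z - p‖ := hrK z (by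
        rw [mem_ball, dist_eq_norm]; linarith)
      have h3 : d < K * δ'' := by
        have h4 : - r z ≤ |r z| := neg_le_abs _
        have h5 : K₂ * ‖z - p‖ ≤ K * δ'' := by gcongr
        linarith [hz.2.1]
      refine ⟨by linarith, lt_of_lt_of_le ?_ hdd7⟩
      have := Real.sqrt_lt_sqrt hd.le h3
      gcongr
    have hsd : Real.sqrt d ^ 2 = d := Real.sq_sqrt hd.le
    have hsd0 : 0 < Real.sqrt d := Real.sqrt_pos.mpr hd
    have hshell := hSh n ((eball a R ∩ ball p δ'') ∩ {z | d < - r z ∧ - r z < 4 * d})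
      ((Ω ∩ U) ∩ {z | d / 2 < - r z ∧ - r z < C * 4 ^ m * d}) (phi t N q τ) (M * Real.sqrt d)
      (κ * d) (L * Real.sqrt d) e f (by positivity) (by positivity) (by positivity) he
      (hopen _ hAopen hAU _ _) (hopen _ hBopen inter_subset_right _ _) (phi_zero t N q τ) ?_
      (phi_diff t N q τ) (hf.mono (fun z hz => hz.1.1)) ?_ ?_ ?_
    · refine hshell.trans ?_
      gcongr
      have h1 : 16 ^ n * (2 * (L * Real.sqrt d) / (Real.pi * (M * Real.sqrt d))) =
          16 ^ n * (2 * L / Real.pi) / M := by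
        have := Real.pi_pos
        field_simp
      rw [h1]
      gcongr
    · -- continuity
      have hτc : ContinuousOn τ (ball p δ) := by
        rw [Metric.continuousOn_iff]
        intro z hz ε' hε'
        refine ⟨ε' / K, by positivity, fun z' hz' hzz' => ?_⟩
        rw [dist_eq_norm] at hzz' ⊢
        have h1 := hτK z' hz' z hz
        rw [lt_div_iff₀ hK0] at hzz'
        linarith
      unfold phi
      have h1 : ContinuousOn (fun x : (Fin n → ℂ) × ℂ => τ x.1)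
          (((eball a R ∩ ball p δ'') ∩ {z | d < - r z ∧ - r z < 4 * d}) ×ˢ univ) :=
        hτc.comp continuousOn_fst (fun x hx => ball_subset_ball hdd6.le hx.1.1.2)
      exact ((continuousOn_fst.add (continuousOn_snd.smul continuousOn_const)).add
        (((h1.mul continuousOn_snd).add (continuousOn_const.mul (continuousOn_snd.pow 2))).smul
          continuousOn_const))
    · -- the curved discs stay in the shell of `Ω`
      intro z hz ζ hζ ξ hξ
      obtain ⟨h1, h2⟩ := hdz z hz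
      have hzp : ‖z - p‖ < δ'' := by simpa [dist_eq_norm] using hz.1.2
      have hζη : ‖ζ‖ < η := hζ.trans h2
      have hξd : ‖ξ‖ < κ * d := hξ
      have hκd : κ * d ≤ δ / 4 := by
        have : d ≤ δ := h1.trans hδ'δ
        nlinarith
      obtain ⟨h3, h4⟩ := hloc z (by rw [mem_ball, dist_eq_norm]; linarith) ζ (by linarith) ξ
        (by linarith)
      have hζ2 : ‖ζ‖ ^ 2 ≤ M ^ 2 * d := by
        have : ‖ζ‖ ^ 2 ≤ (M * Real.sqrt d) ^ 2 := by gcongr
        rw [mul_pow, hsd] at this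
        exact this
      have hζ0 : 0 ≤ ‖ζ‖ ^ 2 := by positivity
      have h5 : K₁ * ((‖z - p‖ + ‖ζ‖) * ‖ζ‖ ^ 2 + ‖ξ‖) ≤ d / 2 := by
        have h6 : (‖z - p‖ + ‖ζ‖) * ‖ζ‖ ^ 2 ≤ (2 * (1 / (8 * K * M ^ 2))) * (M ^ 2 * d) := by
          gcongr
          linarith
        have h7 : (2 * (1 / (8 * K * M ^ 2))) * (M ^ 2 * d) = d / (4 * K) := by
          field_simp
          ring
        rw [h7] at h6
        have h8 : ‖ξ‖ ≤ d / (4 * K) := by
          have : κ * d = d / (4 * K) := by rw [hκdef]; ring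
          linarith
        calc K₁ * ((‖z - p‖ + ‖ζ‖) * ‖ζ‖ ^ 2 + ‖ξ‖)
            ≤ K * (d / (4 * K) + d / (4 * K)) := by gcongr
          _ = d / 2 := by field_simp; ring
      have h9 := abs_le.mp (h4.trans h5)
      have h10 : levi r p t * ‖ζ‖ ^ 2 ≤ 0 := mul_nonpos_of_nonpos_of_nonneg hlev hζ0
      have h11 : - (levi r p t * ‖ζ‖ ^ 2) ≤ |levi r p t| * (M ^ 2 * d) := by
        rw [← neg_mul, ← abs_of_nonpos hlev]
        gcongr
      have hrz1 : d < - r z := hz.2.1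
      have hrz2 : - r z < 4 * d := hz.2.2
      have hw1 : d / 2 < - r (phi t N q τ z ζ + ξ) := by linarith [h9.2]
      have hw2 : - r (phi t N q τ z ζ + ξ) < C * 4 ^ m * d := by
        have h12 : (4 : ℝ) ^ m = M ^ 2 := by
          rw [hMdef, ← pow_mul, mul_comm m 2, pow_mul]; norm_num
        rw [h12]
        have h13 : (1 : ℝ) ≤ M ^ 2 := one_le_pow₀ hM1
        have h14 : 5 * d ≤ 5 * (M ^ 2 * d) := by nlinarith
        have h15 : (5 + |levi r p t|) * (M ^ 2 * d) ≤ C * (M ^ 2 * d) := by gcongr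
        nlinarith [h9.1]
      refine ⟨?_, hw1, hw2⟩
      rw [hΩU]
      exact ⟨h3, by linarith⟩
    · -- the maps are expanding enough
      intro z hz z' hz' ζ hζ
      obtain ⟨h1, h2⟩ := hdz z hz
      rw [phi_sub]
      have h3 : ‖((τ z - τ z') * ζ) • N‖ ≤ ‖z - z'‖ / 2 := by
        rw [norm_smul, norm_mul]
        have h4 := hτK z (ball_subset_ball hdd6.le hz.1.2) z' (ball_subset_ball hdd6.le hz'.1.2)
        have h5 : ‖ζ‖ ≤ 1 / (2 * K ^ 2) := (hζ.trans h2).le.trans hη2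
        calc ‖τ z - τ z'‖ * ‖ζ‖ * ‖N‖ ≤ (K * ‖z - z'‖) * (1 / (2 * K ^ 2)) * K := by
              gcongr
              exact hN.trans hKK₁
          _ = ‖z - z'‖ / 2 := by field_simp
      have h6 : ‖z - z'‖ ≤ ‖(z - z') + ((τ z - τ z') * ζ) • N‖ + ‖((τ z - τ z') * ζ) • N‖ := by
        have := norm_sub_le ((z - z') + ((τ z - τ z') * ζ) • N) (((τ z - τ z') * ζ) • N)
        simpa using this
      linarith
    · -- the strip property
      intro z hz z' hz' ζ ζ' hζ hζ' s hs hΦ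
      obtain ⟨h1, h2⟩ := hdz z hz
      exact hwid d hd h1 z ⟨hz.1.1, ball_subset_ball hdd5 hz.1.2⟩ z'
        ⟨hz'.1.1, ball_subset_ball hdd5 hz'.1.2⟩ hz.2.2 hz'.2.2 ζ ζ' hζ hζ' s hs hΦ

end Pool.Agent.H68R3.BB
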