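import Mathlib

/-!
# Project H68-BB (MP_46c13c_an, Q2): noncompact Bergman restriction from a Euclidean ball

If `Ω₂` is a Euclidean ball inside a bounded domain `Ω₁` with `C^∞` boundary, `bΩ₁ ∩ bΩ₂ = {p}` and
the restriction `A²(Ω₁) → A²(Ω₂)` is not compact, then `p` is a strictly pseudoconvex boundary
point of `Ω₁`.

Definitions and statements of the tasks.
-/

set_option autoImplicit false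

open MeasureTheory Topology Filter Set Metric
open scoped ENNReal NNReal ContDiff

namespace Pool.Agent.H68R3.BB

/-- The Euclidean ball of centre `a` and radius `R` in `ℂⁿ`. -/
def eball {n : ℕ} (a : Fin n → ℂ) (R : ℝ) : Set (Fin n → ℂ) :=
  {z | ∑ i, ‖z i - a i‖ ^ 2 < R ^ 2}

/-- `r` is a `C^∞` local defining function for `Ω` near `p`: on some open neighbourhood `U` of `p`,
`r` is `C^∞` with `dr ≠ 0`, and `Ω ∩ U = {z ∈ U : r z < 0}`. -/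
def IsLocalDefiningFunction {n : ℕ} (Ω : Set (Fin n → ℂ)) (p : Fin n → ℂ)
    (r : (Fin n → ℂ) → ℝ) : Prop :=
  ∃ U : Set (Fin n → ℂ), IsOpen U ∧ p ∈ U ∧ ContDiffOn ℝ ∞ r U ∧
    (∀ z ∈ U, fderiv ℝ r z ≠ 0) ∧ Ω ∩ U = {z | z ∈ U ∧ r z < 0}

/-- `f` belongs to the Bergman space `A²(Ω)`: it is holomorphic on `Ω` and square integrable on `Ω`
with respect to Lebesgue measure on `ℂⁿ`. -/
def MemBergman {n : ℕ} (Ω : Set (Fin n → ℂ)) (f : (Fin n → ℂ) → ℂ) : Prop :=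
  DifferentiableOn ℂ f Ω ∧ MemLp f 2 ((volume : Measure (Fin n → ℂ)).restrict Ω)

/-- The restriction operator `R : A²(Ω₁) → A²(Ω₂)`, `R f = f|_{Ω₂}` (for `Ω₂ ⊆ Ω₁`), is compact:
every sequence which is bounded in the norm of `A²(Ω₁)` has a subsequence whose restrictions to
`Ω₂` converge in the norm of `A²(Ω₂)` to an element of `A²(Ω₂)`. -/
def RestrictionIsCompact {n : ℕ} (Ω₁ Ω₂ : Set (Fin n → ℂ)) : Prop :=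
  ∀ (f : ℕ → (Fin n → ℂ) → ℂ) (C : ℝ≥0),
    (∀ j, MemBergman Ω₁ (f j)) →
    (∀ j, eLpNorm (f j) 2 ((volume : Measure (Fin n → ℂ)).restrict Ω₁) ≤ C) →
    ∃ (g : (Fin n → ℂ) → ℂ) (φ : ℕ → ℕ), MemBergman Ω₂ g ∧ StrictMono φ ∧
      Tendsto (fun j => eLpNorm (f (φ j) - g) 2 ((volume : Measure (Fin n → ℂ)).restrict Ω₂))
        atTop (𝓝 0)

/-- The second derivative of `r` at `p` in the directions `u`, `v`. -/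
noncomputable def hess {n : ℕ} (r : (Fin n → ℂ) → ℝ) (p u v : Fin n → ℂ) : ℝ :=
  fderiv ℝ (fderiv ℝ r) p u v

/-- The Levi form `∑ ∂²r/∂z_j∂z̄_k (p) t_j t̄_k` of `r` at `p` in the direction `t`; it is a quarter
of the Laplacian at `ζ = 0` of `ζ ↦ r (p + ζ t)`. -/
noncomputable def levi {n : ℕ} (r : (Fin n → ℂ) → ℝ) (p t : Fin n → ℂ) : ℝ :=
  (hess r p t t + hess r p (Complex.I • t) (Complex.I • t)) / 4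

/-- The curved discs. -/
def phi {n : ℕ} (t N : Fin n → ℂ) (q : ℂ) (τ : (Fin n → ℂ) → ℂ) (z : Fin n → ℂ) (ζ : ℂ) :
    Fin n → ℂ :=
  z + ζ • t + (τ z * ζ + q * ζ ^ 2) • N

/-! ### Tasks -/

/-- Second order Taylor expansion, uniform near `p`. -/
def TaskTaylor : Prop :=
  ∀ (n : ℕ) (r : (Fin n → ℂ) → ℝ) (U : Set (Fin n → ℂ)) (p : Fin n → ℂ),
    IsOpen U → p ∈ U → ContDiffOn ℝ ∞ r U →
    ∃ (K δ : ℝ), 1 ≤ K ∧ 0 < δ ∧ δ ≤ 1 ∧ ball p (2 * δ) ⊆ U ∧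
      (∀ u v : Fin n → ℂ, |hess r p u v| ≤ K * ‖u‖ * ‖v‖) ∧
      (∀ z ∈ ball p δ, ‖fderiv ℝ r z‖ ≤ K) ∧
      (∀ z ∈ ball p δ, ∀ z' ∈ ball p δ, ‖fderiv ℝ r z - fderiv ℝ r z'‖ ≤ K * ‖z - z'‖) ∧
      ∀ z ∈ ball p δ, ∀ v : Fin n → ℂ, ‖v‖ < δ →
        |r (z + v) - r z - fderiv ℝ r z v - hess r p v v / 2| ≤
          K * (‖z - p‖ + ‖v‖) * ‖v‖ ^ 2

/-- (Prove `TaskTaylor → TaskLocal`.) Local expansion of `r` along the curved discs. Put `c(z)(v) = dr(z)(v) - i dr(z)(i v)` (it is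
complex linear in `v` and has real part `dr(z)(v)`), take `N` with `dr(p)(N) ≠ 0`,
`τ z = - c(z)(t) / c(z)(N)`, `q = -A / (2 c(p)(N))` with
`A = (hess t t - hess (It) (It)) / 2 - i hess t (It)`. -/
def TaskLocal : Prop :=
  ∀ (n : ℕ) (r : (Fin n → ℂ) → ℝ) (U : Set (Fin n → ℂ)) (p t : Fin n → ℂ),
    IsOpen U → p ∈ U → ContDiffOn ℝ ∞ r U → fderiv ℝ r p ≠ 0 →
    fderiv ℝ r p t = 0 → fderiv ℝ r p (Complex.I • t) = 0 →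
    ∃ (N : Fin n → ℂ) (q : ℂ) (τ : (Fin n → ℂ) → ℂ) (K δ : ℝ), 1 ≤ K ∧ 0 < δ ∧ δ ≤ 1 ∧
      ‖N‖ ≤ K ∧ ‖q‖ ≤ K ∧ τ p = 0 ∧ ball p δ ⊆ U ∧
      (∀ z ∈ ball p δ, ∀ z' ∈ ball p δ, ‖τ z - τ z'‖ ≤ K * ‖z - z'‖) ∧
      ∀ z ∈ ball p δ, ∀ ζ : ℂ, ‖ζ‖ < δ → ∀ ξ : Fin n → ℂ, ‖ξ‖ < δ →
        phi t N q τ z ζ + ξ ∈ U ∧
        |r (phi t N q τ z ζ + ξ) - r z - levi r p t * ‖ζ‖ ^ 2| ≤
          K * ((‖z - p‖ + ‖ζ‖) * ‖ζ‖ ^ 2 + ‖ξ‖)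

/-- (Prove `TaskTaylor → TaskMid`.) Midpoint expansion of `r`. -/
def TaskMid : Prop :=
  ∀ (n : ℕ) (r : (Fin n → ℂ) → ℝ) (U : Set (Fin n → ℂ)) (p : Fin n → ℂ),
    IsOpen U → p ∈ U → ContDiffOn ℝ ∞ r U → r p = 0 →
    ∃ (K δ : ℝ), 1 ≤ K ∧ 0 < δ ∧ δ ≤ 1 ∧ ball p δ ⊆ U ∧
      (∀ u v : Fin n → ℂ, |hess r p u v| ≤ K * ‖u‖ * ‖v‖) ∧
      (∀ z ∈ ball p δ, |r z| ≤ K * ‖z - p‖) ∧
      ∀ z ∈ ball p δ, ∀ z' ∈ ball p δ,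
        |r z + r z' - 2 * r ((1 / 2 : ℝ) • (z + z')) - hess r p (z - z') (z - z') / 4| ≤
          K * (‖z - p‖ + ‖z' - p‖) * ‖z - z'‖ ^ 2

/-- (Prove `TaskTaylor → TaskInner`.) The distance to the boundary of `Ω₁` is at least comparable to the distance to the boundary of
the ball. Proof: `N'` with `dr(p) N' = 1`; for small `s`, `r (z + s N') ≥ r z + s / 2`, and
`z + s N' ∈ eball a R` for `s = c₁ (R² - ∑ ‖z i - a i‖²)`. -/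
def TaskInner : Prop :=
  ∀ (n : ℕ) (r : (Fin n → ℂ) → ℝ) (Ω U : Set (Fin n → ℂ)) (p a : Fin n → ℂ) (R : ℝ),
    IsOpen U → p ∈ U → ContDiffOn ℝ ∞ r U → fderiv ℝ r p ≠ 0 → 0 < R → eball a R ⊆ Ω →
    Ω ∩ U = {z | z ∈ U ∧ r z < 0} →
    ∃ (c δ : ℝ), 0 < c ∧ 0 < δ ∧ ball p δ ⊆ U ∧
      ∀ z ∈ eball a R ∩ ball p δ, c * (R ^ 2 - ∑ i, ‖z i - a i‖ ^ 2) ≤ - r z

/-- The strip property. -/
def TaskWidth : Prop :=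
  ∀ (n : ℕ) (r : (Fin n → ℂ) → ℝ) (p t N a : Fin n → ℂ) (q e : ℂ) (τ : (Fin n → ℂ) → ℂ)
    (R K c δ κ : ℝ), 1 ≤ K → 0 < c → 0 < δ → δ ≤ 1 → 0 < κ → 0 < R → ‖t‖ = 1 → ‖e‖ = 1 →
    ‖N‖ ≤ K → ‖q‖ ≤ K → τ p = 0 →
    (∀ z ∈ ball p δ, ∀ z' ∈ ball p δ, ‖τ z - τ z'‖ ≤ K * ‖z - z'‖) →
    (∀ u v : Fin n → ℂ, |hess r p u v| ≤ K * ‖u‖ * ‖v‖) →
    (∀ z ∈ ball p δ, ∀ z' ∈ ball p δ,
        |r z + r z' - 2 * r ((1 / 2 : ℝ) • (z + z')) - hess r p (z - z') (z - z') / 4| ≤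
          K * (‖z - p‖ + ‖z' - p‖) * ‖z - z'‖ ^ 2) →
    (∀ z ∈ eball a R ∩ ball p δ, c * (R ^ 2 - ∑ i, ‖z i - a i‖ ^ 2) ≤ - r z) →
    hess r p (e • t) (e • t) ≤ 0 →
    ∃ L : ℝ, 0 < L ∧ ∀ M : ℝ, 1 ≤ M → ∃ δ' : ℝ, 0 < δ' ∧ δ' ≤ δ ∧ ∀ d : ℝ, 0 < d → d ≤ δ' →
      ∀ z ∈ eball a R ∩ ball p δ', ∀ z' ∈ eball a R ∩ ball p δ', - r z < 4 * d →
      - r z' < 4 * d → ∀ ζ ζ' : ℂ, ‖ζ‖ < M * Real.sqrt d → ‖ζ'‖ < M * Real.sqrt d →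
      ∀ s : ℝ, ζ' - ζ = (s : ℂ) * e →
      ‖phi t N q τ z ζ - phi t N q τ z' ζ'‖ < 2 * (κ * d) → |s| ≤ L * Real.sqrt d

/-- Area of a set all of whose sections in one direction are short. -/
def TaskArea : Prop :=
  ∀ (G : Set ℂ) (e : ℂ) (ρ L : ℝ), IsOpen G → 0 < ρ → 0 < L → ‖e‖ = 1 → G ⊆ ball 0 ρ →
    (∀ ζ ∈ G, ∀ ζ' ∈ G, ∀ s : ℝ, ζ' - ζ = (s : ℂ) * e → |s| ≤ L) →
    volume G ≤ ENNReal.ofReal (2 * ρ * L)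

/-- Sub-mean value inequality over a product of balls (use balancedness: the circle
`φ ↦ (e^{iφ} ζ, e^{iφ} ξ)` and Fubini). -/
def TaskMean : Prop :=
  ∀ (n : ℕ) (h : ℂ × (Fin n → ℂ) → ℂ) (ρ σ : ℝ), 0 < ρ → 0 < σ →
    DifferentiableOn ℂ h (ball (0 : ℂ) ρ ×ˢ ball (0 : Fin n → ℂ) σ) →
    ‖h 0‖ₑ ^ 2 * (volume (ball (0 : ℂ) ρ) * volume (ball (0 : Fin n → ℂ) σ)) ≤
      ∫⁻ ζ in ball (0 : ℂ) ρ, ∫⁻ ξ in ball (0 : Fin n → ℂ) σ, ‖h (ζ, ξ)‖ₑ ^ 2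

/-- The estimate on one shell. (Prove `TaskMean → TaskArea → TaskShell`.) -/
def TaskShell : Prop :=
  ∀ (n : ℕ) (S T : Set (Fin n → ℂ)) (Φ : (Fin n → ℂ) → ℂ → (Fin n → ℂ)) (ρ σ L : ℝ) (e : ℂ)
    (f : (Fin n → ℂ) → ℂ), 0 < ρ → 0 < σ → 0 < L → ‖e‖ = 1 → IsOpen S → IsOpen T →
    (∀ z, Φ z 0 = z) → ContinuousOn (fun x : (Fin n → ℂ) × ℂ => Φ x.1 x.2) (S ×ˢ univ) →
    (∀ z, Differentiable ℂ (Φ z)) → DifferentiableOn ℂ f T →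
    (∀ z ∈ S, ∀ ζ : ℂ, ‖ζ‖ < ρ → ∀ ξ : Fin n → ℂ, ‖ξ‖ < σ → Φ z ζ + ξ ∈ T) →
    (∀ z ∈ S, ∀ z' ∈ S, ∀ ζ : ℂ, ‖ζ‖ < ρ → ‖z - z'‖ ≤ 2 * ‖Φ z ζ - Φ z' ζ‖) →
    (∀ z ∈ S, ∀ z' ∈ S, ∀ ζ ζ' : ℂ, ‖ζ‖ < ρ → ‖ζ'‖ < ρ → ∀ s : ℝ, ζ' - ζ = (s : ℂ) * e →
      ‖Φ z ζ - Φ z' ζ'‖ < 2 * σ → |s| ≤ L) →
    ∫⁻ z in S, ‖f z‖ₑ ^ 2 ≤
      ENNReal.ofReal (16 ^ n * (2 * L / (Real.pi * ρ))) * ∫⁻ w in T, ‖f w‖ₑ ^ 2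

/-- Summation over dyadic shells. -/
def TaskSum : Prop :=
  ∀ (α : Type) [MeasurableSpace α] (μ : Measure α) (A B : Set α) (D : α → ℝ) (g : α → ℝ≥0∞)
    (C : ℝ) (m : ℕ), 1 ≤ C → (∀ x ∈ A, 0 < D x) → MeasurableSet B →
    AEMeasurable g (μ.restrict B) →
    (∀ a b : ℝ, 0 < a → MeasurableSet (A ∩ {x | a < D x ∧ D x < b})) →
    (∀ a b : ℝ, 0 < a → MeasurableSet (B ∩ {x | a < D x ∧ D x < b})) →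
    (∀ d : ℝ, 0 < d → ∫⁻ x in A ∩ {x | d < D x ∧ D x < 4 * d}, g x ∂μ ≤
      ENNReal.ofReal (C / 2 ^ m) *
        ∫⁻ x in B ∩ {x | d / 2 < D x ∧ D x < C * 4 ^ m * d}, g x ∂μ) →
    ∫⁻ x in A, g x ∂μ ≤ ENNReal.ofReal (20 * C ^ 2 * (m + 1) / 2 ^ m) * ∫⁻ x in B, g x ∂μ

/-- Montel's theorem and the end of the proof: smallness near `p` implies compactness. -/
def TaskCompact : Prop :=
  ∀ (n : ℕ) (Ω₁ Ω₂ : Set (Fin n → ℂ)), IsOpen Ω₁ → IsOpen Ω₂ → Ω₂ ⊆ Ω₁ →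
    (∀ ε : ℝ, 0 < ε → ∃ K : Set (Fin n → ℂ), IsCompact K ∧ K ⊆ Ω₁ ∧
      ∀ f : (Fin n → ℂ) → ℂ, DifferentiableOn ℂ f Ω₁ →
        ∫⁻ z in Ω₂ \ K, ‖f z‖ₑ ^ 2 ≤ ENNReal.ofReal ε * ∫⁻ z in Ω₁, ‖f z‖ₑ ^ 2) →
    RestrictionIsCompact Ω₁ Ω₂

end Pool.Agent.H68R3.BB
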