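import Mathlib
import Pool.Agent.Helper853.Bk.Bergman
import Pool.Agent.H68R3.BB.Stmts

/-! # TaskCompact of project H68-BB (helper729) -/

set_option autoImplicit false

open MeasureTheory Topology Filter Set Metric
open scoped ENNReal NNReal ContDiff

namespace Pool.Agent.H68R3.BB.Cpt

variable {n : ℕ}

lemma eLp_sq (f : (Fin n → ℂ) → ℂ) (μ : Measure (Fin n → ℂ)) :
    (eLpNorm f 2 μ) ^ 2 = ∫⁻ z, ‖f z‖ₑ ^ 2 ∂μ := by
  rw [eLpNorm_eq_lintegral_rpow_enorm_toReal (by norm_num) (by norm_num)]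
  have h2 : (2 : ℝ≥0∞).toReal = 2 := by norm_num
  rw [h2, ← ENNReal.rpow_natCast, ← ENNReal.rpow_mul]
  norm_num

lemma enorm_sq (a : ℂ) : ‖a‖ₑ ^ 2 = ENNReal.ofReal (‖a‖ ^ 2) := by
  rw [ENNReal.ofReal_pow (norm_nonneg _), ofReal_norm]

lemma aesm {Ω : Set (Fin n → ℂ)} (hΩ : IsOpen Ω) {f : (Fin n → ℂ) → ℂ}
    (hf : DifferentiableOn ℂ f Ω) : AEStronglyMeasurable f (volume.restrict Ω) :=
  hf.continuousOn.aestronglyMeasurable hΩ.measurableSet

/-- local bounds -/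
lemma local_bound {Ω : Set (Fin n → ℂ)} (hΩ : IsOpen Ω) (A : ℝ≥0) {z : Fin n → ℂ} (hz : z ∈ Ω) :
    ∃ δ M : ℝ, 0 < δ ∧ 0 ≤ M ∧ ball z (2 * δ) ⊆ Ω ∧ ∀ f : (Fin n → ℂ) → ℂ,
      DifferentiableOn ℂ f Ω → ∫⁻ w in Ω, ‖f w‖ₑ ^ 2 ≤ A → ∀ w ∈ ball z (2 * δ), ‖f w‖ ≤ M := by
  obtain ⟨ε, hε, hb⟩ := Metric.isOpen_iff.1 hΩ z hz
  set δ := ε / 4 with hδ
  have hδ0 : 0 < δ := by positivity
  have hV0 : volume (closedBall (0 : Fin n → ℂ) δ) ≠ 0 :=
    (measure_closedBall_pos volume _ hδ0).ne'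
  have hVt : volume (closedBall (0 : Fin n → ℂ) δ) ≠ ⊤ :=
    (isCompact_closedBall _ _).measure_lt_top.ne
  set V := volume (closedBall (0 : Fin n → ℂ) δ) with hV
  refine ⟨δ, Real.sqrt ((A : ℝ≥0∞) / V).toReal, hδ0, Real.sqrt_nonneg _,
    (ball_subset_ball (by rw [hδ]; linarith)).trans hb, ?_⟩
  intro f hf hI w hw
  have hsub : closedBall w δ ⊆ Ω := by
    refine Subset.trans ?_ hb
    intro v hv
    rw [mem_closedBall] at hv
    rw [mem_ball] at hw ⊢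
    have := dist_triangle v w z
    linarith
  have h1 := Pool.Agent.Helper853.Bk.bergman_ineq hf hsub
  have hvol : volume (closedBall w δ) = V := by
    rw [hV]
    have := measure_preimage_add (volume : Measure (Fin n → ℂ)) (-w) (closedBall 0 δ)
    rw [← this]
    congr 1
    ext v
    rw [mem_preimage, mem_closedBall_zero_iff, mem_closedBall, dist_eq_norm, neg_add_eq_sub]
  have h2 : ENNReal.ofReal (‖f w‖ ^ 2) * V ≤ A := by
    rw [← hvol]
    refine h1.trans (le_trans ?_ hI)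
    simp only [enorm_sq]
    exact lintegral_mono_set hsub
  have h3 : ENNReal.ofReal (‖f w‖ ^ 2) ≤ (A : ℝ≥0∞) / V :=
    (ENNReal.le_div_iff_mul_le (Or.inl hV0) (Or.inl hVt)).2 h2
  have hAt : (A : ℝ≥0∞) / V ≠ ⊤ := ENNReal.div_ne_top ENNReal.coe_ne_top hV0
  have h4 : ‖f w‖ ^ 2 ≤ ((A : ℝ≥0∞) / V).toReal := by
    have := ENNReal.toReal_mono hAt h3
    rwa [ENNReal.toReal_ofReal (by positivity)] at this
  exact Real.le_sqrt_of_sq_le h4

/-- Montel: pointwise convergence of a subsequence -/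
lemma montel {Ω : Set (Fin n → ℂ)} {f : ℕ → (Fin n → ℂ) → ℂ}
    (hf : ∀ j, DifferentiableOn ℂ (f j) Ω)
    (hb : ∀ z ∈ Ω, ∃ δ M : ℝ, 0 < δ ∧ 0 ≤ M ∧ ball z (2 * δ) ⊆ Ω ∧
      ∀ j, ∀ w ∈ ball z (2 * δ), ‖f j w‖ ≤ M) :
    ∃ φ : ℕ → ℕ, StrictMono φ ∧ ∃ g : (Fin n → ℂ) → ℂ,
      ∀ z ∈ Ω, Tendsto (fun j => f (φ j) z) atTop (𝓝 (g z)) := by
  have hL : ∀ z ∈ Ω, ∃ K : ℝ, 0 < K ∧ ∃ δ : ℝ, 0 < δ ∧ ball z δ ⊆ Ω ∧
      ∀ j, ∀ w ∈ ball z δ, ‖f j w - f j z‖ ≤ K * ‖w - z‖ := by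
    intro z hz
    obtain ⟨δ, M, hδ, hM, hsub, hbd⟩ := hb z hz
    refine ⟨2 * (M + 1) / δ, by positivity, δ, hδ,
      (ball_subset_ball (by linarith)).trans hsub, fun j w hw => ?_⟩
    refine Pool.Agent.Helper853.Bk.lipschitz_bound hδ ((hf j).mono hsub) (fun v hv =>
      (hbd j v hv).trans (by linarith)) (mem_ball_self hδ) hw
  set d : ℕ → (Fin n → ℂ) := TopologicalSpace.denseSeq (Fin n → ℂ) with hdd
  have hdense : DenseRange d := TopologicalSpace.denseRange_denseSeq _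
  have hbd' : ∀ k, ∃ C : ℝ, ∀ j, d k ∈ Ω → ‖f j (d k)‖ ≤ C := by
    intro k
    by_cases hk : d k ∈ Ω
    · obtain ⟨δ, M, hδ, hM, hsub, hbd⟩ := hb _ hk
      exact ⟨M, fun j _ => hbd j _ (mem_ball_self (by positivity))⟩
    · exact ⟨0, fun j h => absurd h hk⟩
  choose C hC using hbd'
  classical
  set x : ℕ → ℕ → ℂ := fun j k => if d k ∈ Ω then f j (d k) else 0 with hx
  have hcomp : IsCompact (Set.pi Set.univ fun k : ℕ => closedBall (0 : ℂ) |C k|) :=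
    isCompact_univ_pi fun k => isCompact_closedBall _ _
  have hxm : ∀ j, x j ∈ Set.pi Set.univ fun k : ℕ => closedBall (0 : ℂ) |C k| := by
    intro j k _
    simp only [hx]
    rw [mem_closedBall_zero_iff]
    split_ifs with hk
    · exact (hC k j hk).trans (le_abs_self _)
    · simp
  obtain ⟨a, -, φ, hφ, hlim⟩ := hcomp.tendsto_subseq hxm
  have hk : ∀ k, d k ∈ Ω → CauchySeq fun j => f (φ j) (d k) := by
    intro k hk
    have h1 : Tendsto (fun j => x (φ j) k) atTop (𝓝 (a k)) :=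
      ((continuous_apply k).tendsto a).comp hlim
    have h2 : (fun j => x (φ j) k) = fun j => f (φ j) (d k) := by
      ext1 j
      simp only [hx, if_pos hk]
    rw [h2] at h1
    exact h1.cauchySeq
  have hcau : ∀ z ∈ Ω, CauchySeq fun j => f (φ j) z := by
    intro z hz
    obtain ⟨K, hK, δ, hδ, hsub, hLip⟩ := hL z hz
    rw [Metric.cauchySeq_iff']
    intro ε hε
    obtain ⟨k, hkz⟩ : ∃ k, d k ∈ ball z (min δ (ε / (3 * K))) :=
      hdense.exists_mem_open isOpen_ball ⟨z, mem_ball_self (by positivity)⟩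
    have hkδ : d k ∈ ball z δ := ball_subset_ball (min_le_left _ _) hkz
    have hke : ‖d k - z‖ < ε / (3 * K) := by
      have := ball_subset_ball (min_le_right _ _) hkz
      rwa [mem_ball, dist_eq_norm] at this
    have hke' : K * ‖d k - z‖ < ε / 3 := by
      calc K * ‖d k - z‖ < K * (ε / (3 * K)) := by gcongr
        _ = ε / 3 := by field_simp
    obtain ⟨N, hN⟩ := (Metric.cauchySeq_iff'.1 (hk k (hsub hkδ))) (ε / 3) (by positivity)
    refine ⟨N, fun j hj => ?_⟩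
    have h1 := hLip (φ j) (d k) hkδ
    have h2 := hLip (φ N) (d k) hkδ
    have h3 := hN j hj
    rw [dist_eq_norm] at h3 ⊢
    calc ‖f (φ j) z - f (φ N) z‖ = ‖-(f (φ j) (d k) - f (φ j) z) + (f (φ j) (d k) - f (φ N) (d k))
          + (f (φ N) (d k) - f (φ N) z)‖ := by congr 1; abel
      _ ≤ ‖-(f (φ j) (d k) - f (φ j) z)‖ + ‖f (φ j) (d k) - f (φ N) (d k)‖
          + ‖f (φ N) (d k) - f (φ N) z‖ := norm_add₃_le
      _ < ε := by rw [norm_neg]; linarith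
  have hex : ∀ z : Fin n → ℂ, ∃ w : ℂ, z ∈ Ω → Tendsto (fun j => f (φ j) z) atTop (𝓝 w) := by
    intro z
    by_cases hz : z ∈ Ω
    · obtain ⟨w, hw⟩ := cauchySeq_tendsto_of_complete (hcau z hz)
      exact ⟨w, fun _ => hw⟩
    · exact ⟨0, fun h => absurd h hz⟩
  choose g hg using hex
  exact ⟨φ, hφ, g, fun z hz => hg z hz⟩

lemma enorm_sub_sq (a b : ℂ) : ‖a - b‖ₑ ^ 2 ≤ 2 * ‖a‖ₑ ^ 2 + 2 * ‖b‖ₑ ^ 2 := by
  rw [enorm_sq, enorm_sq, enorm_sq]
  have h2 : (2 : ℝ≥0∞) = ENNReal.ofReal 2 := by norm_num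
  rw [h2, ← ENNReal.ofReal_mul (by norm_num), ← ENNReal.ofReal_mul (by norm_num),
    ← ENNReal.ofReal_add (by positivity) (by positivity)]
  apply ENNReal.ofReal_le_ofReal
  have h1 := norm_sub_le a b
  have h3 := norm_nonneg (a - b)
  nlinarith [sq_nonneg (‖a‖ - ‖b‖)]

end Pool.Agent.H68R3.BB.Cpt

namespace Pool.Agent.H68R3.BB

open Cpt in
theorem taskCompact : TaskCompact := by
  intro n Ω₁ Ω₂ hΩ₁ hΩ₂ hsub hsmall f C hf hC
  have hI : ∀ j, ∫⁻ w in Ω₁, ‖f j w‖ₑ ^ 2 ≤ ((C ^ 2 : ℝ≥0) : ℝ≥0∞) := by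
    intro j
    rw [← eLp_sq, ENNReal.coe_pow]
    exact pow_le_pow_left' (hC j) 2
  have hbd : ∀ z ∈ Ω₁, ∃ δ M : ℝ, 0 < δ ∧ 0 ≤ M ∧ ball z (2 * δ) ⊆ Ω₁ ∧
      ∀ j, ∀ w ∈ ball z (2 * δ), ‖f j w‖ ≤ M := by
    intro z hz
    obtain ⟨δ, M, h1, h2, h3, h4⟩ := local_bound hΩ₁ (C ^ 2) hz
    exact ⟨δ, M, h1, h2, h3, fun j w hw => h4 (f j) (hf j).1 (hI j) w hw⟩
  obtain ⟨φ, hφ, g, hg⟩ := montel (fun j => (hf j).1) hbd
  -- the limit is holomorphic
  have hgd : DifferentiableOn ℂ g Ω₁ := by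
    intro z hz
    obtain ⟨δ, M, h1, h2, h3, h4⟩ := hbd z hz
    refine (Pool.Agent.Helper853.Bk.differentiableAt_of_tendsto (G := fun k => f (φ k))
      (r := 2 * δ) (M := M) (by positivity) (Eventually.of_forall fun k =>
        ⟨((hf (φ k)).1).mono h3, h4 (φ k)⟩) (fun w hw => hg w (h3 hw))).differentiableWithinAt
  have hm : ∀ j, AEMeasurable (fun w => ‖f j w‖ₑ ^ 2) (volume.restrict Ω₁) := fun j =>
    ((aesm hΩ₁ (hf j).1).enorm.pow_const 2)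
  have hmg : AEMeasurable (fun w => ‖g w‖ₑ ^ 2) (volume.restrict Ω₁) :=
    (aesm hΩ₁ hgd).enorm.pow_const 2
  -- Fatou
  have hIg : ∫⁻ w in Ω₁, ‖g w‖ₑ ^ 2 ≤ ((C ^ 2 : ℝ≥0) : ℝ≥0∞) := by
    have h1 : ∫⁻ w in Ω₁, ‖g w‖ₑ ^ 2 ≤
        ∫⁻ w in Ω₁, liminf (fun j => ‖f (φ j) w‖ₑ ^ 2) atTop := by
      apply setLIntegral_mono_ae' hΩ₁.measurableSet
      filter_upwards with w hw
      have h2 : Tendsto (fun j => ‖f (φ j) w‖ₑ ^ 2) atTop (𝓝 (‖g w‖ₑ ^ 2)) :=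
        ENNReal.Tendsto.pow ((hg w hw).enorm)
      rw [h2.liminf_eq]
    refine h1.trans ((lintegral_liminf_le' fun j => hm (φ j)).trans ?_)
    refine liminf_le_of_le ?_ ?_
    · isBoundedDefault
    · intro b hb
      obtain ⟨j, hj⟩ := hb.exists
      exact hj.trans (hI (φ j))
  have hgB : MemBergman Ω₂ g := by
    refine ⟨hgd.mono hsub, ?_⟩
    have h1 : MemLp g 2 (volume.restrict Ω₁) := by
      refine ⟨aesm hΩ₁ hgd, ?_⟩
      have h2 : (eLpNorm g 2 (volume.restrict Ω₁)) ^ 2 < ⊤ := by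
        rw [eLp_sq]
        exact hIg.trans_lt ENNReal.coe_lt_top
      by_contra hcon
      rw [not_lt, top_le_iff] at hcon
      rw [hcon] at h2
      simp at h2
    exact h1.mono_measure (Measure.restrict_mono hsub le_rfl)
  refine ⟨g, φ, hgB, hφ, ?_⟩
  -- the difference
  have hd : ∀ j, DifferentiableOn ℂ (f (φ j) - g) Ω₁ := fun j => ((hf (φ j)).1).sub hgd
  have hId : ∀ j, ∫⁻ w in Ω₁, ‖(f (φ j) - g) w‖ₑ ^ 2 ≤ ((4 * C ^ 2 : ℝ≥0) : ℝ≥0∞) := by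
    intro j
    calc ∫⁻ w in Ω₁, ‖(f (φ j) - g) w‖ₑ ^ 2
        ≤ ∫⁻ w in Ω₁, (2 * ‖f (φ j) w‖ₑ ^ 2 + 2 * ‖g w‖ₑ ^ 2) :=
          lintegral_mono fun w => enorm_sub_sq _ _
      _ = 2 * (∫⁻ w in Ω₁, ‖f (φ j) w‖ₑ ^ 2) + 2 * ∫⁻ w in Ω₁, ‖g w‖ₑ ^ 2 := by
          rw [lintegral_add_left' ((hm (φ j)).const_mul 2), lintegral_const_mul'' _ (hm (φ j)),
            lintegral_const_mul'' _ hmg]
      _ ≤ 2 * ((C ^ 2 : ℝ≥0) : ℝ≥0∞) + 2 * ((C ^ 2 : ℝ≥0) : ℝ≥0∞) := by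
          gcongr
          exact hI (φ j)
      _ = ((4 * C ^ 2 : ℝ≥0) : ℝ≥0∞) := by
          push_cast
          ring
  have key : Tendsto (fun j => ∫⁻ w in Ω₂, ‖(f (φ j) - g) w‖ₑ ^ 2) atTop (𝓝 0) := by
    rw [ENNReal.tendsto_nhds_zero]
    intro ε hε
    by_cases hεt : ε = ⊤
    · filter_upwards with j
      rw [hεt]
      exact le_top
    -- choose the compact set
    have hε0 : 0 < ε.toReal := ENNReal.toReal_pos hε.ne' hεt
    set η : ℝ := ε.toReal / (2 * (4 * (C : ℝ) ^ 2 + 1)) with hη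
    have hη0 : 0 < η := by positivity
    obtain ⟨K, hK, hKΩ, hKf⟩ := hsmall η hη0
    have h1 : ∀ j, ∫⁻ w in Ω₂ \ K, ‖(f (φ j) - g) w‖ₑ ^ 2 ≤ ε / 2 := by
      intro j
      refine (hKf _ (hd j)).trans ((mul_le_mul_right (hId j) _).trans ?_)
      have e1 : ((4 * C ^ 2 : ℝ≥0) : ℝ≥0∞) = ENNReal.ofReal (4 * (C : ℝ) ^ 2) := by
        rw [← ENNReal.ofReal_coe_nnreal]
        congr 1
      rw [e1, ← ENNReal.ofReal_mul hη0.le]
      have e2 : ε / 2 = ENNReal.ofReal (ε.toReal / 2) := by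
        rw [ENNReal.ofReal_div_of_pos (by norm_num), ENNReal.ofReal_toReal hεt]
        norm_num
      rw [e2]
      apply ENNReal.ofReal_le_ofReal
      have hden : (0 : ℝ) < 2 * (4 * (C : ℝ) ^ 2 + 1) := by positivity
      rw [hη, div_mul_eq_mul_div, div_le_div_iff₀ hden (by norm_num)]
      nlinarith
    -- dominated convergence on the compact set
    have h2 : Tendsto (fun j => ∫⁻ w in K, ‖(f (φ j) - g) w‖ₑ ^ 2) atTop (𝓝 0) := by
      -- a uniform bound on K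
      have hB : ∃ B : ℝ, ∀ w ∈ K, ∀ j, ‖f j w‖ ≤ B := by
        choose! δ M hδ hM hs hbb using hbd
        obtain ⟨t, ht, hcov⟩ := hK.elim_nhds_subcover (fun z => ball z (2 * δ z))
          (fun z hz => ball_mem_nhds _ (by have := hδ z (hKΩ hz); positivity))
        refine ⟨∑ z ∈ t, M z, fun w hw j => ?_⟩
        obtain ⟨z, hz, hwz⟩ := mem_iUnion₂.1 (hcov hw)
        refine (hbb z (hKΩ (ht z hz)) j w hwz).trans ?_
        exact Finset.single_le_sum (f := M) (fun i hi => hM i (hKΩ (ht i hi))) hz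
      obtain ⟨B, hB⟩ := hB
      have hgB' : ∀ w ∈ K, ‖g w‖ ≤ B := fun w hw =>
        le_of_tendsto' (hg w (hKΩ hw)).norm (fun j => hB w hw (φ j))
      have hres : (volume : Measure (Fin n → ℂ)).restrict K ≤ volume.restrict Ω₁ :=
        Measure.restrict_mono hKΩ le_rfl
      have h3 := tendsto_lintegral_of_dominated_convergence'
        (μ := (volume : Measure (Fin n → ℂ)).restrict K)
        (F := fun j w => ‖(f (φ j) - g) w‖ₑ ^ 2) (f := fun _ => 0)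
        (fun _ => ENNReal.ofReal ((2 * B) ^ 2)) (fun j => ?_) (fun j => ?_) ?_ ?_
      · simpa using h3
      · exact (((aesm hΩ₁ (hd j)).mono_measure hres).enorm.pow_const 2)
      · rw [EventuallyLE, ae_restrict_iff' hK.measurableSet]
        filter_upwards with w hw
        rw [enorm_sq]
        apply ENNReal.ofReal_le_ofReal
        have h4 : ‖(f (φ j) - g) w‖ ≤ 2 * B := by
          refine (norm_sub_le _ _).trans ?_
          have := hB w hw (φ j)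
          have := hgB' w hw
          linarith
        exact pow_le_pow_left₀ (norm_nonneg _) h4 2
      · rw [lintegral_const, Measure.restrict_apply_univ]
        exact ENNReal.mul_ne_top ENNReal.ofReal_ne_top hK.measure_lt_top.ne
      · rw [ae_restrict_iff' hK.measurableSet]
        filter_upwards with w hw
        have h5 : Tendsto (fun j => f (φ j) w - g w) atTop (𝓝 0) := by
          have := (hg w (hKΩ hw)).sub_const (g w)
          rwa [sub_self] at this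
        have h6 := ENNReal.Tendsto.pow (n := 2) h5.enorm
        simpa using h6
    rw [ENNReal.tendsto_nhds_zero] at h2
    filter_upwards [h2 (ε / 2) (ENNReal.half_pos hε.ne')] with j hj
    calc ∫⁻ w in Ω₂, ‖(f (φ j) - g) w‖ₑ ^ 2
        ≤ ∫⁻ w in K ∪ Ω₂ \ K, ‖(f (φ j) - g) w‖ₑ ^ 2 := by
          apply lintegral_mono_set
          rw [union_sdiff_self]
          exact subset_union_right
      _ ≤ (∫⁻ w in K, ‖(f (φ j) - g) w‖ₑ ^ 2) + ∫⁻ w in Ω₂ \ K, ‖(f (φ j) - g) w‖ₑ ^ 2 :=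
          lintegral_union_le _ _ _
      _ ≤ ε / 2 + ε / 2 := add_le_add hj (h1 j)
      _ = ε := ENNReal.add_halves ε
  -- back to the norm
  have h7 : ∀ j, eLpNorm (f (φ j) - g) 2 (volume.restrict Ω₂) =
      (∫⁻ w in Ω₂, ‖(f (φ j) - g) w‖ₑ ^ 2) ^ (1 / 2 : ℝ) := by
    intro j
    rw [← eLp_sq, ← ENNReal.rpow_natCast, ← ENNReal.rpow_mul]
    norm_num
  simp only [h7]
  have h8 := key.ennrpow_const (1 / 2 : ℝ)
  simpa using h8

end Pool.Agent.H68R3.BB
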