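import Pool.Agent.H68R3.BB.Asm

/-!
# Project H68-BB: the final theorem from the tasks
-/

set_option autoImplicit false

open MeasureTheory Topology Filter Set Metric
open scoped ENNReal NNReal ContDiff

namespace Pool.Agent.H68R3.BB

variable {n : ℕ}

/-- `p` is a strictly pseudoconvex boundary point, in terms of the defining function `r`: the Levi
form is positive definite on the complex tangent space at `p`. -/
def IsStrictlyPseudoconvexAt (r : (Fin n → ℂ) → ℝ) (p : Fin n → ℂ) : Prop :=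
  ∀ t : Fin n → ℂ, t ≠ 0 → fderiv ℝ r p t = 0 → fderiv ℝ r p (Complex.I • t) = 0 → 0 < levi r p t

theorem levi_smul (r : (Fin n → ℂ) → ℝ) (p t : Fin n → ℂ) (x : ℝ) :
    levi r p (x • t) = x ^ 2 * levi r p t := by
  unfold levi hess
  rw [smul_comm Complex.I x t]
  simp only [map_smul, ContinuousLinearMap.smul_apply, smul_eq_mul]
  ring

theorem defining_zero {Ω U : Set (Fin n → ℂ)} {r : (Fin n → ℂ) → ℝ} {p : Fin n → ℂ}
    (hΩ : IsOpen Ω) (hU : IsOpen U) (hpU : p ∈ U) (hr : ContinuousOn r U)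
    (hΩU : Ω ∩ U = {z | z ∈ U ∧ r z < 0}) (hp : p ∈ frontier Ω) : r p = 0 := by
  have hc : ContinuousAt r p := hr.continuousAt (hU.mem_nhds hpU)
  rw [hΩ.frontier_eq] at hp
  apply le_antisymm
  · by_contra h
    push Not at h
    have h1 : ∀ᶠ z in 𝓝 p, 0 < r z := hc.eventually (lt_mem_nhds h)
    have h2 : ∀ᶠ z in 𝓝 p, z ∈ U := hU.mem_nhds hpU
    obtain ⟨z, ⟨h3, h4⟩, h5⟩ := mem_closure_iff_nhds.mp hp.1 _ (h1.and h2)
    have h6 : z ∈ Ω ∩ U := ⟨h5, h4⟩
    rw [hΩU] at h6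
    exact absurd h6.2 (not_lt.mpr h3.le)
  · by_contra h
    push Not at h
    have h6 : p ∈ Ω ∩ U := by
      rw [hΩU]
      exact ⟨hpU, h⟩
    exact hp.2 h6.1

theorem final (hSh : TaskShell) (hW : TaskWidth) (hSu : TaskSum) (hL : TaskLocal) (hM : TaskMid)
    (hI : TaskInner) (hC : TaskCompact)
    {Ω₁ : Set (Fin n → ℂ)} (hΩ₁ : IsOpen Ω₁) {a : Fin n → ℂ} {R : ℝ} (hR : 0 < R)
    (hsub : eball a R ⊆ Ω₁) {p : Fin n → ℂ} (hp : frontier Ω₁ ∩ frontier (eball a R) = {p})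
    {r : (Fin n → ℂ) → ℝ} (hr : IsLocalDefiningFunction Ω₁ p r)
    (hnc : ¬ RestrictionIsCompact Ω₁ (eball a R)) : IsStrictlyPseudoconvexAt r p := by
  obtain ⟨U, hU, hpU, hrU, hdr, hΩU⟩ := hr
  intro t ht ht1 ht2
  by_contra hlev
  push Not at hlev
  apply hnc
  have hpf : p ∈ frontier Ω₁ ∩ frontier (eball a R) := by rw [hp]; exact rfl
  have hr0 := defining_zero hΩ₁ hU hpU hrU.continuousOn hΩU hpf.1
  have htn : 0 < ‖t‖ := norm_pos_iff.mpr ht
  have hsmall := small_near hSh hW hSu hL hM hI hU hpU hrU hr0 hΩ₁ (hdr p hpU) hΩU hR hsub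
    (t := ‖t‖⁻¹ • t) (by rw [norm_smul, norm_inv, norm_norm, inv_mul_cancel₀ htn.ne'])
    (by rw [map_smul, ht1, smul_zero])
    (by rw [smul_comm, map_smul, ht2, smul_zero])
    (by rw [levi_smul]; exact mul_nonpos_of_nonneg_of_nonpos (by positivity) hlev)
  refine hC n Ω₁ (eball a R) hΩ₁ (isOpen_eball a R) hsub fun ε hε => ?_
  obtain ⟨δ, hδ, hδf⟩ := hsmall ε hε
  refine ⟨closure (eball a R) \ ball p δ, ?_, ?_, fun f hf => ?_⟩
  · have h1 : Bornology.IsBounded (eball a R) := isBounded_closedBall.subset (eball_subset a hR)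
    exact h1.isCompact_closure.diff isOpen_ball
  · rintro x ⟨hx, hxp⟩
    by_contra hxΩ
    have h1 : x ∈ frontier Ω₁ := by
      rw [hΩ₁.frontier_eq]
      exact ⟨closure_mono hsub hx, hxΩ⟩
    have h2 : x ∈ frontier (eball a R) := by
      rw [(isOpen_eball a R).frontier_eq]
      exact ⟨hx, fun h => hxΩ (hsub h)⟩
    have h3 : x ∈ frontier Ω₁ ∩ frontier (eball a R) := ⟨h1, h2⟩
    rw [hp, mem_singleton_iff] at h3
    rw [h3] at hxp
    exact hxp (mem_ball_self hδ)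
  · refine le_trans (lintegral_mono_set ?_) (hδf f hf)
    rintro x ⟨hx, hx2⟩
    refine ⟨hx, ?_⟩
    by_contra h
    exact hx2 ⟨subset_closure hx, h⟩

end Pool.Agent.H68R3.BB
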