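import Pool.Agent.H68R3.BB.Stmts

set_option autoImplicit false

open MeasureTheory Topology Filter Set Metric
open scoped ENNReal NNReal ContDiff

namespace Pool.Agent.H68R3.BB

theorem taskInner (hT : TaskTaylor) : TaskInner := by
  intro n r Ω U p a R hU hp hr hdr hR hball hΩ
  obtain ⟨K, δ₀, hK, hδ₀, hδ₁, hsub, hH, _, hL, hTay⟩ := hT n r U p hU hp hr
  -- the direction
  obtain ⟨N, hN⟩ : ∃ N : Fin n → ℂ, fderiv ℝ r p N = 1 := by
    obtain ⟨v, hv⟩ : ∃ v, fderiv ℝ r p v ≠ 0 := by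
      by_contra hcon
      push Not at hcon
      exact hdr (ContinuousLinearMap.ext hcon)
    refine ⟨(fderiv ℝ r p v)⁻¹ • v, ?_⟩
    rw [map_smul, smul_eq_mul, inv_mul_cancel₀ hv]
  set ν : ℝ := ‖N‖ + 1 with hν
  have hν1 : 1 ≤ ν := by
    have := norm_nonneg N
    linarith
  have hNν : ‖N‖ ≤ ν := by linarith
  have hK0 : 0 < K := by linarith
  have hν0 : 0 < ν := by linarith
  set Q : ℝ := 1 + n * (2 * R * ν + R ^ 2 * ν ^ 2) + 10 * K * ν ^ 2 * R ^ 2 + 2 * R ^ 2 * ν / δ₀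
    with hQ
  have hn0 : (0 : ℝ) ≤ n := Nat.cast_nonneg n
  have hQ1 : 1 ≤ Q := by
    have h1 : 0 ≤ n * (2 * R * ν + R ^ 2 * ν ^ 2) := by positivity
    have h2 : 0 ≤ 10 * K * ν ^ 2 * R ^ 2 := by positivity
    have h3 : 0 ≤ 2 * R ^ 2 * ν / δ₀ := by positivity
    linarith
  have hQ0 : 0 < Q := by linarith
  refine ⟨1 / (2 * Q), min δ₀ (1 / (4 * K * ν)), by positivity, lt_min hδ₀ (by positivity), ?_, ?_⟩
  · exact (ball_subset_ball ((min_le_left _ _).trans (by linarith))).trans hsub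
  rintro z ⟨hz1, hz2⟩
  have hzp : ‖z - p‖ < min δ₀ (1 / (4 * K * ν)) := by
    rwa [mem_ball, dist_eq_norm] at hz2
  have hzp1 : ‖z - p‖ < δ₀ := hzp.trans_le (min_le_left _ _)
  have hzp2 : ‖z - p‖ < 1 / (4 * K * ν) := hzp.trans_le (min_le_right _ _)
  have hzball : z ∈ ball p δ₀ := by rwa [mem_ball, dist_eq_norm]
  have hpball : p ∈ ball p δ₀ := mem_ball_self hδ₀
  set S : ℝ := ∑ i, ‖z i - a i‖ ^ 2 with hS
  have hS0 : 0 ≤ S := Finset.sum_nonneg fun i _ => sq_nonneg _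
  have hSR : S < R ^ 2 := hz1
  set d : ℝ := R ^ 2 - S with hd
  have hd0 : 0 < d := by linarith
  have hdR : d ≤ R ^ 2 := by linarith
  set s : ℝ := d / Q with hs
  have hs0 : 0 < s := by positivity
  have hsQ : s * Q = d := div_mul_cancel₀ d hQ0.ne'
  -- consequences of the choice of `Q`
  have hQa : 1 + n * (2 * R * ν + R ^ 2 * ν ^ 2) ≤ Q := by
    have h2 : 0 ≤ 10 * K * ν ^ 2 * R ^ 2 := by positivity
    have h3 : 0 ≤ 2 * R ^ 2 * ν / δ₀ := by positivity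
    linarith
  have hQb : 10 * K * ν ^ 2 * R ^ 2 ≤ Q := by
    have h1 : 0 ≤ n * (2 * R * ν + R ^ 2 * ν ^ 2) := by positivity
    have h3 : 0 ≤ 2 * R ^ 2 * ν / δ₀ := by positivity
    linarith
  have hQc : 2 * R ^ 2 * ν / δ₀ ≤ Q := by
    have h1 : 0 ≤ n * (2 * R * ν + R ^ 2 * ν ^ 2) := by positivity
    have h2 : 0 ≤ 10 * K * ν ^ 2 * R ^ 2 := by positivity
    linarith
  have hs1 : s ≤ R ^ 2 := by
    have h1 : s * 1 ≤ s * Q := mul_le_mul_of_nonneg_left hQ1 hs0.le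
    linarith
  have hsb : 10 * K * ν ^ 2 * s ≤ 1 := by
    have h1 : 10 * K * ν ^ 2 * R ^ 2 * s ≤ Q * s := mul_le_mul_of_nonneg_right hQb hs0.le
    have h2 : R ^ 2 * (10 * K * ν ^ 2 * s) ≤ R ^ 2 * 1 := by nlinarith
    exact le_of_mul_le_mul_left h2 (by positivity)
  have hsc : 2 * ν * s ≤ δ₀ := by
    have h1 : 2 * R ^ 2 * ν / δ₀ * s ≤ Q * s := mul_le_mul_of_nonneg_right hQc hs0.le
    have h2 : 2 * R ^ 2 * ν / δ₀ * s ≤ R ^ 2 := by linarith
    have h3 : 2 * R ^ 2 * ν / δ₀ * s = R ^ 2 * (2 * ν * s / δ₀) := by ring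
    rw [h3] at h2
    have h4 : 2 * ν * s / δ₀ ≤ 1 := by
      have h5 : R ^ 2 * (2 * ν * s / δ₀) ≤ R ^ 2 * 1 := by linarith
      exact le_of_mul_le_mul_left h5 (by positivity)
    rwa [div_le_one hδ₀] at h4
  set v : Fin n → ℂ := s • N with hv
  have hvn : ‖v‖ ≤ s * ν := by
    rw [hv, norm_smul, Real.norm_eq_abs, abs_of_pos hs0]
    exact mul_le_mul_of_nonneg_left hNν hs0.le
  have hvδ : ‖v‖ < δ₀ := by
    have h1 : s * ν ≤ δ₀ / 2 := by linarith
    linarith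
  -- the point is in the ball
  have hzi : ∀ i, ‖z i - a i‖ ≤ R := by
    intro i
    have h1 : ‖z i - a i‖ ^ 2 ≤ S :=
      Finset.single_le_sum (f := fun i => ‖z i - a i‖ ^ 2) (fun i _ => sq_nonneg _)
        (Finset.mem_univ i)
    by_contra hcon
    push Not at hcon
    have h2 : R ^ 2 < ‖z i - a i‖ ^ 2 := pow_lt_pow_left₀ hcon hR.le two_ne_zero
    linarith
  have hmem : z + v ∈ eball a R := by
    show ∑ i, ‖(z + v) i - a i‖ ^ 2 < R ^ 2
    have h1 : ∀ i ∈ Finset.univ, ‖(z + v) i - a i‖ ^ 2 ≤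
        ‖z i - a i‖ ^ 2 + (2 * s * ν * R + s ^ 2 * ν ^ 2) := by
      intro i _
      have h2 : ‖(z + v) i - a i‖ ≤ ‖z i - a i‖ + s * ν := by
        have e : (z + v) i - a i = (z i - a i) + v i := by
          rw [Pi.add_apply]
          ring
        rw [e]
        refine (norm_add_le _ _).trans ?_
        have := (norm_le_pi_norm v i).trans hvn
        linarith
      have h3 : ‖(z + v) i - a i‖ ^ 2 ≤ (‖z i - a i‖ + s * ν) ^ 2 :=
        pow_le_pow_left₀ (norm_nonneg _) h2 2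
      have h4 := hzi i
      have h5 : 0 ≤ s * ν := by positivity
      nlinarith
    have h6 := Finset.sum_le_sum h1
    rw [Finset.sum_add_distrib, Finset.sum_const, Finset.card_univ, Fintype.card_fin,
      nsmul_eq_mul, ← hS] at h6
    have h7 : (n : ℝ) * (2 * s * ν * R + s ^ 2 * ν ^ 2) < d := by
      have h8 : (n : ℝ) * (2 * s * ν * R + s ^ 2 * ν ^ 2) ≤
          s * (n * (2 * R * ν + R ^ 2 * ν ^ 2)) := by
        have h9 : s ^ 2 * ν ^ 2 ≤ s * (R ^ 2 * ν ^ 2) := by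
          have : s * (s * ν ^ 2) ≤ s * (R ^ 2 * ν ^ 2) := by
            apply mul_le_mul_of_nonneg_left _ hs0.le
            exact mul_le_mul_of_nonneg_right hs1 (sq_nonneg _)
          calc s ^ 2 * ν ^ 2 = s * (s * ν ^ 2) := by ring
            _ ≤ _ := this
        calc (n : ℝ) * (2 * s * ν * R + s ^ 2 * ν ^ 2)
            ≤ n * (2 * s * ν * R + s * (R ^ 2 * ν ^ 2)) := by
              apply mul_le_mul_of_nonneg_left _ hn0
              linarith
          _ = s * (n * (2 * R * ν + R ^ 2 * ν ^ 2)) := by ring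
      have h10 : s * (1 + n * (2 * R * ν + R ^ 2 * ν ^ 2)) ≤ s * Q :=
        mul_le_mul_of_nonneg_left hQa hs0.le
      rw [mul_add, mul_one, hsQ] at h10
      linarith
    linarith
  have hmemU : z + v ∈ U := by
    apply hsub
    rw [mem_ball, dist_eq_norm]
    have e : z + v - p = (z - p) + v := by abel
    rw [e]
    calc ‖(z - p) + v‖ ≤ ‖z - p‖ + ‖v‖ := norm_add_le _ _
      _ < 2 * δ₀ := by linarith
  have hneg : r (z + v) < 0 := by
    have h1 : z + v ∈ Ω ∩ U := ⟨hball hmem, hmemU⟩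
    rw [hΩ] at h1
    exact h1.2
  -- Taylor
  have ht := (abs_le.1 (hTay z hzball v hvδ)).1
  have hlin : s * (1 - K * ν * ‖z - p‖) ≤ fderiv ℝ r z v := by
    have h1 : |fderiv ℝ r z N - fderiv ℝ r p N| ≤ K * ‖z - p‖ * ν := by
      have h2 := (fderiv ℝ r z - fderiv ℝ r p).le_opNorm N
      rw [Real.norm_eq_abs] at h2
      have h3 : (fderiv ℝ r z - fderiv ℝ r p) N = fderiv ℝ r z N - fderiv ℝ r p N := rfl
      rw [h3] at h2
      refine h2.trans ?_
      exact mul_le_mul (hL z hzball p hpball) hNν (norm_nonneg _) (by positivity)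
    have h4 := (abs_le.1 h1).1
    rw [hN] at h4
    have h5 : fderiv ℝ r z v = s * fderiv ℝ r z N := by
      rw [hv, map_smul, smul_eq_mul]
    rw [h5]
    apply mul_le_mul_of_nonneg_left _ hs0.le
    linarith
  have hzp3 : K * ν * ‖z - p‖ ≤ 1 / 4 := by
    have h1 : K * ν * ‖z - p‖ ≤ K * ν * (1 / (4 * K * ν)) :=
      mul_le_mul_of_nonneg_left hzp2.le (by positivity)
    have h2 : K * ν * (1 / (4 * K * ν)) = 1 / 4 := by
      field_simp
    linarith
  have hv2 : ‖v‖ ^ 2 ≤ s ^ 2 * ν ^ 2 := by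
    calc ‖v‖ ^ 2 ≤ (s * ν) ^ 2 := pow_le_pow_left₀ (norm_nonneg _) hvn 2
      _ = s ^ 2 * ν ^ 2 := by ring
  have hhess : -(K * (s ^ 2 * ν ^ 2)) ≤ hess r p v v := by
    have h1 := (abs_le.1 (hH v v)).1
    have h2 : K * ‖v‖ * ‖v‖ = K * ‖v‖ ^ 2 := by ring
    rw [h2] at h1
    have h3 : K * ‖v‖ ^ 2 ≤ K * (s ^ 2 * ν ^ 2) := mul_le_mul_of_nonneg_left hv2 hK0.le
    linarith
  have herr : K * (‖z - p‖ + ‖v‖) * ‖v‖ ^ 2 ≤ 2 * K * (s ^ 2 * ν ^ 2) := by
    have h1 : K * (‖z - p‖ + ‖v‖) ≤ 2 * K := by nlinarith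
    exact mul_le_mul h1 hv2 (sq_nonneg _) (by positivity)
  have hss : K * (s ^ 2 * ν ^ 2) ≤ s / 10 := by
    have h1 : s * (10 * K * ν ^ 2 * s) ≤ s * 1 := mul_le_mul_of_nonneg_left hsb hs0.le
    nlinarith
  have hmain : s / 2 ≤ - r z := by
    have h1 : s * (1 - K * ν * ‖z - p‖) ≥ s * (3 / 4) := by
      apply mul_le_mul_of_nonneg_left _ hs0.le
      linarith
    linarith
  calc 1 / (2 * Q) * d = s / 2 := by
        rw [hs]
        field_simp
    _ ≤ - r z := hmain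

end Pool.Agent.H68R3.BB
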