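import Mathlib
import Pool.Agent.H68R3.BB.Stmts

/-!
Project H68-BB: `TaskTaylor → TaskLocal`.
-/

set_option autoImplicit false

open MeasureTheory Topology Filter Set Metric
open scoped ENNReal NNReal ContDiff

namespace Pool.Agent.H68R3.BB.Loc

open Pool.Agent.H68R3.BB

variable {n : ℕ}

lemma L_smul (L : (Fin n → ℂ) →L[ℝ] ℝ) (z : ℂ) (v : Fin n → ℂ) :
    L (z • v) = z.re * L v + z.im * L (Complex.I • v) := by
  have h : z • v = z.re • v + z.im • (Complex.I • v) := by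
    conv_lhs => rw [← Complex.re_add_im z, add_smul, mul_smul]
    rw [Complex.coe_smul, Complex.coe_smul]
  rw [h, map_add, map_smul, map_smul, smul_eq_mul, smul_eq_mul]

/-- the complex linear form with real part `L` -/
noncomputable def cc (L : (Fin n → ℂ) →L[ℝ] ℝ) (v : Fin n → ℂ) : ℂ :=
  (L v : ℂ) - Complex.I * (L (Complex.I • v) : ℂ)

lemma cc_re (L : (Fin n → ℂ) →L[ℝ] ℝ) (v : Fin n → ℂ) : (cc L v).re = L v := by
  simp [cc]

lemma cc_add (L : (Fin n → ℂ) →L[ℝ] ℝ) (u v : Fin n → ℂ) : cc L (u + v) = cc L u + cc L v := by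
  simp only [cc, smul_add, map_add]
  push_cast
  ring

lemma cc_smul (L : (Fin n → ℂ) →L[ℝ] ℝ) (z : ℂ) (v : Fin n → ℂ) :
    cc L (z • v) = z * cc L v := by
  have h1 := L_smul L z v
  have h2 := L_smul L (Complex.I * z) v
  rw [mul_smul] at h2
  apply Complex.ext
  · simp only [cc, h1, h2]
    simp
  · simp only [cc, h1, h2]
    simp

lemma cc_norm (L : (Fin n → ℂ) →L[ℝ] ℝ) (v : Fin n → ℂ) : ‖cc L v‖ ≤ 2 * ‖L‖ * ‖v‖ := by
  unfold cc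
  refine (norm_sub_le _ _).trans ?_
  rw [norm_mul, Complex.norm_I, one_mul, Complex.norm_real, Complex.norm_real]
  have h1 := L.le_opNorm v
  have h2 := L.le_opNorm (Complex.I • v)
  rw [norm_smul, Complex.norm_I, one_mul] at h2
  linarith

lemma cc_sub (L L' : (Fin n → ℂ) →L[ℝ] ℝ) (v : Fin n → ℂ) : cc L v - cc L' v = cc (L - L') v := by
  simp only [cc, sub_apply]
  push_cast
  ring

lemma tau_lip {x y x' y' : ℂ} {c0 k s t' m : ℝ} (hc : 0 < c0) (hk : 0 ≤ k) (hs : 0 ≤ s)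
    (ht : 0 ≤ t') (hm : 0 ≤ m)
    (h1 : ‖y‖ ≥ c0 / 2) (h2 : ‖y'‖ ≥ c0 / 2) (h3 : ‖x' - x‖ ≤ 2 * k * s * t')
    (h4 : ‖y - y'‖ ≤ 2 * k * s * m) (h5 : ‖y'‖ ≤ 2 * k * m) (h6 : ‖x'‖ ≤ 2 * k * t') :
    ‖-x / y - -x' / y'‖ ≤ (32 * k ^ 2 * t' * m / c0 ^ 2) * s := by
  have hy : y ≠ 0 := by
    intro h; rw [h, norm_zero] at h1; linarith
  have hy' : y' ≠ 0 := by
    intro h; rw [h, norm_zero] at h2; linarith
  have e : -x / y - -x' / y' = ((x' - x) * y' + x' * (y - y')) / (y * y') := by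
    field_simp
    ring
  rw [e, norm_div, norm_mul y]
  have hn : ‖(x' - x) * y' + x' * (y - y')‖ ≤ 8 * k ^ 2 * s * t' * m := by
    refine (norm_add_le _ _).trans ?_
    rw [norm_mul, norm_mul]
    have a1 : ‖x' - x‖ * ‖y'‖ ≤ (2 * k * s * t') * (2 * k * m) :=
      mul_le_mul h3 h5 (norm_nonneg _) (by positivity)
    have a2 : ‖x'‖ * ‖y - y'‖ ≤ (2 * k * t') * (2 * k * s * m) :=
      mul_le_mul h6 h4 (norm_nonneg _) (by positivity)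
    nlinarith
  have hd : c0 ^ 2 / 4 ≤ ‖y‖ * ‖y'‖ := by
    have : c0 / 2 * (c0 / 2) ≤ ‖y‖ * ‖y'‖ :=
      mul_le_mul h1 h2 (by positivity) (norm_nonneg _)
    nlinarith
  have hdp : 0 < c0 ^ 2 / 4 := by positivity
  calc ‖(x' - x) * y' + x' * (y - y')‖ / (‖y‖ * ‖y'‖) ≤
      (8 * k ^ 2 * s * t' * m) / (c0 ^ 2 / 4) :=
        div_le_div₀ (by positivity) hn hdp hd
    _ = (32 * k ^ 2 * t' * m / c0 ^ 2) * s := by field_simp; ring

/-- bookkeeping of the error terms -/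
lemma est {Q a b e y V E1 E2 E3 : ℝ} (hQ : 1 ≤ Q) (ha : 0 ≤ a) (ha1 : a ≤ 1) (hb : 0 ≤ b)
    (hb1 : b ≤ 1) (he : 0 ≤ e) (he1 : e ≤ 1) (hy0 : 0 ≤ y) (hy : y ≤ Q ^ 2 * ((a + b) * b) + e)
    (hV0 : 0 ≤ V) (hV : V ≤ Q * b + y) (h1 : E1 ≤ 2 * Q ^ 3 * a * b ^ 2 + Q * e)
    (h2 : E2 ≤ Q / 2 * (2 * (Q * b) * y + y ^ 2)) (h3 : E3 ≤ Q * (a + V) * V ^ 2) :
    E1 + E2 + E3 ≤ 200 * Q ^ 7 * ((a + b) * b ^ 2 + e) := by
  have q1 : 1 ≤ Q ^ 2 := one_le_pow₀ hQ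
  have hQ0 : 0 < Q := by linarith
  set X := (a + b) * b ^ 2 with hX
  have hX0 : 0 ≤ X := by positivity
  -- powers of Q
  have p1 : Q ≤ Q ^ 7 := le_self_pow₀ hQ (by norm_num)
  have p2 : Q ^ 2 ≤ Q ^ 7 := pow_le_pow_right₀ hQ (by norm_num)
  have p3 : Q ^ 3 ≤ Q ^ 7 := pow_le_pow_right₀ hQ (by norm_num)
  have p4 : Q ^ 4 ≤ Q ^ 7 := pow_le_pow_right₀ hQ (by norm_num)
  have p5 : Q ^ 5 ≤ Q ^ 7 := pow_le_pow_right₀ hQ (by norm_num)
  have hab : a + b ≤ 2 := by linarith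
  have hby : b * y ≤ Q ^ 2 * X + e := by
    have : b * y ≤ b * (Q ^ 2 * ((a + b) * b) + e) := mul_le_mul_of_nonneg_left hy hb
    have h' : b * e ≤ 1 * e := mul_le_mul_of_nonneg_right hb1 he
    have h'' : b * (Q ^ 2 * ((a + b) * b) + e) = Q ^ 2 * X + b * e := by rw [hX]; ring
    linarith only [this, h', h'']
  have hy2 : y ≤ 2 * Q ^ 2 * b + e := by
    have s1 : (a + b) * b ≤ 2 * b := mul_le_mul_of_nonneg_right hab hb
    have s2 := mul_le_mul_of_nonneg_left s1 (by positivity : 0 ≤ Q ^ 2)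
    linarith only [hy, s2]
  have hee : e ^ 2 ≤ e := by
    have := mul_le_mul_of_nonneg_right he1 he
    rw [sq]; linarith only [this]
  have hysq : y ^ 2 ≤ 4 * Q ^ 4 * X + 2 * e := by
    have s1 : y ^ 2 ≤ (Q ^ 2 * ((a + b) * b) + e) ^ 2 := pow_le_pow_left₀ hy0 hy 2
    have s2 : (Q ^ 2 * ((a + b) * b) + e) ^ 2 =
        2 * (Q ^ 2 * ((a + b) * b)) ^ 2 + 2 * e ^ 2 - (Q ^ 2 * ((a + b) * b) - e) ^ 2 := by
      ring
    have s2' := sq_nonneg (Q ^ 2 * ((a + b) * b) - e)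
    have s3 : 2 * (Q ^ 2 * ((a + b) * b)) ^ 2 = 2 * Q ^ 4 * (a + b) * X := by rw [hX]; ring
    have s4 : 2 * Q ^ 4 * (a + b) * X ≤ 4 * Q ^ 4 * X := by
      have s5 : 0 ≤ Q ^ 4 * X := by positivity
      have s6 := mul_le_mul_of_nonneg_right hab s5
      linarith only [s6]
    linarith only [s1, s2, s2', s3, s4, hee]
  have hE2 : E2 ≤ 4 * Q ^ 7 * X + 2 * Q ^ 7 * e := by
    have s1 : Q / 2 * (2 * (Q * b) * y + y ^ 2) = Q ^ 2 * (b * y) + Q / 2 * y ^ 2 := by ring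
    have s2 : Q ^ 2 * (b * y) ≤ Q ^ 2 * (Q ^ 2 * X + e) :=
      mul_le_mul_of_nonneg_left hby (by positivity)
    have s3 : Q / 2 * y ^ 2 ≤ Q / 2 * (4 * Q ^ 4 * X + 2 * e) :=
      mul_le_mul_of_nonneg_left hysq (by positivity)
    have s4 : Q ^ 2 * (Q ^ 2 * X + e) = Q ^ 4 * X + Q ^ 2 * e := by ring
    have s5 : Q / 2 * (4 * Q ^ 4 * X + 2 * e) = 2 * (Q ^ 5 * X) + Q * e := by ring
    have s6 : Q ^ 4 * X ≤ Q ^ 7 * X := mul_le_mul_of_nonneg_right p4 hX0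
    have s7 : Q ^ 5 * X ≤ Q ^ 7 * X := mul_le_mul_of_nonneg_right p5 hX0
    have s8 : Q ^ 2 * e ≤ Q ^ 7 * e := mul_le_mul_of_nonneg_right p2 he
    have s9 : Q * e ≤ Q ^ 7 * e := mul_le_mul_of_nonneg_right p1 he
    have s10 : 0 ≤ Q ^ 7 * X := by positivity
    linarith
  have hE1 : E1 ≤ 2 * Q ^ 7 * X + Q ^ 7 * e := by
    have s1 : a * b ^ 2 ≤ X := by
      have : 0 ≤ b * b ^ 2 := by positivity
      rw [hX]; linarith only [this]
    have s2 : 2 * Q ^ 3 * a * b ^ 2 ≤ 2 * Q ^ 3 * X := by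
      have := mul_le_mul_of_nonneg_left s1 (by positivity : 0 ≤ 2 * Q ^ 3)
      linarith
    have s3 : Q ^ 3 * X ≤ Q ^ 7 * X := mul_le_mul_of_nonneg_right p3 hX0
    have s9 : Q * e ≤ Q ^ 7 * e := mul_le_mul_of_nonneg_right p1 he
    linarith
  have hVb : V ≤ 3 * Q ^ 2 * b + e := by
    have s0 : Q ≤ Q ^ 2 := le_self_pow₀ hQ (by norm_num)
    have : Q * b ≤ Q ^ 2 * b := mul_le_mul_of_nonneg_right s0 hb
    linarith only [this, hV, hy2]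
  have hV2 : V ^ 2 ≤ 18 * Q ^ 4 * b ^ 2 + 2 * e := by
    have s1 : V ^ 2 ≤ (3 * Q ^ 2 * b + e) ^ 2 := pow_le_pow_left₀ hV0 hVb 2
    have s2 : (3 * Q ^ 2 * b + e) ^ 2 = 18 * Q ^ 4 * b ^ 2 + 2 * e ^ 2 -
      (3 * Q ^ 2 * b - e) ^ 2 := by ring
    have s3 := sq_nonneg (3 * Q ^ 2 * b - e)
    linarith only [s1, s2, s3, hee]
  have haV : a + V ≤ 3 * Q ^ 2 * (a + b) + e := by
    have s1 : 1 * a ≤ Q ^ 2 * a := mul_le_mul_of_nonneg_right q1 ha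
    have s2 : 0 ≤ Q ^ 2 * a := by positivity
    linarith only [s1, s2, hVb]
  have hE3 : E3 ≤ 54 * Q ^ 7 * X + 40 * Q ^ 7 * e := by
    have s1 : (a + V) * V ^ 2 ≤ (3 * Q ^ 2 * (a + b) + e) * (18 * Q ^ 4 * b ^ 2 + 2 * e) :=
      mul_le_mul haV hV2 (by positivity) (by positivity)
    have s2 : (3 * Q ^ 2 * (a + b) + e) * (18 * Q ^ 4 * b ^ 2 + 2 * e) =
        54 * Q ^ 6 * X + 6 * Q ^ 2 * ((a + b) * e) + 18 * Q ^ 4 * (b ^ 2 * e) + 2 * e ^ 2 := by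
      rw [hX]; ring
    have s3 : (a + b) * e ≤ 2 * e := mul_le_mul_of_nonneg_right hab he
    have s4 : b ^ 2 * e ≤ 1 * e := mul_le_mul_of_nonneg_right (pow_le_one₀ hb hb1) he
    have s5 : 6 * Q ^ 2 * ((a + b) * e) ≤ 6 * Q ^ 2 * (2 * e) :=
      mul_le_mul_of_nonneg_left s3 (by positivity)
    have s6 : 18 * Q ^ 4 * (b ^ 2 * e) ≤ 18 * Q ^ 4 * (1 * e) :=
      mul_le_mul_of_nonneg_left s4 (by positivity)
    have s7 : Q * ((a + V) * V ^ 2) ≤ Q * (54 * Q ^ 6 * X + 6 * Q ^ 2 * (2 * e) +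
        18 * Q ^ 4 * (1 * e) + 2 * e) :=
      mul_le_mul_of_nonneg_left (by linarith) hQ0.le
    have s8 : Q * (54 * Q ^ 6 * X + 6 * Q ^ 2 * (2 * e) + 18 * Q ^ 4 * (1 * e) + 2 * e) =
        54 * (Q ^ 7 * X) + 12 * (Q ^ 3 * e) + 18 * (Q ^ 5 * e) + 2 * (Q * e) := by ring
    have s9 : Q * e ≤ Q ^ 7 * e := mul_le_mul_of_nonneg_right p1 he
    have s10 : Q ^ 3 * e ≤ Q ^ 7 * e := mul_le_mul_of_nonneg_right p3 he
    have s11 : Q ^ 5 * e ≤ Q ^ 7 * e := mul_le_mul_of_nonneg_right p5 he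
    have s12 : 0 ≤ Q ^ 7 * e := by positivity
    have s13 : Q * (a + V) * V ^ 2 = Q * ((a + V) * V ^ 2) := by ring
    linarith
  have t1 : 0 ≤ Q ^ 7 * X := by positivity
  have t2 : 0 ≤ Q ^ 7 * e := by positivity
  linarith

lemma smul_decomp (z : ℂ) (v : Fin n → ℂ) : z • v = z.re • v + z.im • (Complex.I • v) := by
  conv_lhs => rw [← Complex.re_add_im z, add_smul, mul_smul]
  rw [Complex.coe_smul, Complex.coe_smul]

lemma hess_quad (r : (Fin n → ℂ) → ℝ) (p t : Fin n → ℂ) (ζ : ℂ)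
    (hs : hess r p (Complex.I • t) t = hess r p t (Complex.I • t)) :
    hess r p (ζ • t) (ζ • t) / 2 = levi r p t * ‖ζ‖ ^ 2 +
      (((((hess r p t t - hess r p (Complex.I • t) (Complex.I • t)) / 2 : ℝ) : ℂ) -
        Complex.I * (hess r p t (Complex.I • t) : ℂ)) * ζ ^ 2).re / 2 := by
  have h1 : hess r p (ζ • t) (ζ • t) = ζ.re ^ 2 * hess r p t t +
      2 * (ζ.re * ζ.im) * hess r p t (Complex.I • t) +
      ζ.im ^ 2 * hess r p (Complex.I • t) (Complex.I • t) := by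
    have e : hess r p (ζ • t) (ζ • t) = ζ.re * (ζ.re * hess r p t t) +
        ζ.re * (ζ.im * hess r p t (Complex.I • t)) + (ζ.im * (ζ.re * hess r p (Complex.I • t) t) +
        ζ.im * (ζ.im * hess r p (Complex.I • t) (Complex.I • t))) := by
      conv_lhs => rw [smul_decomp ζ t]
      unfold hess
      simp only [map_add, map_smul, add_apply, smul_apply, smul_eq_mul]
      ring
    rw [e, hs]
    ring
  have h2 : ‖ζ‖ ^ 2 = ζ.re ^ 2 + ζ.im ^ 2 := by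
    rw [Complex.sq_norm, Complex.normSq_apply]; ring
  rw [h1, h2]
  unfold levi
  simp [sq]
  ring

end Pool.Agent.H68R3.BB.Loc

namespace Pool.Agent.H68R3.BB

open Loc

set_option maxHeartbeats 1000000 in
theorem taskLocal : TaskTaylor → TaskLocal := by
  intro hTay n r U p t hU hpU hr hdr ht1 ht2
  obtain ⟨K0, δ0, hK0, hδ0, hδ1, hball, hhess, hfd, hlip, htay⟩ := hTay n r U p hU hpU hr
  obtain ⟨N, hN⟩ : ∃ N, fderiv ℝ r p N ≠ 0 := by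
    by_contra h
    push Not at h
    exact hdr (ContinuousLinearMap.ext fun v => by simpa using h v)
  have hcN0 : cc (fderiv ℝ r p) N ≠ 0 := by
    intro h
    apply hN
    rw [← cc_re, h]
    rfl
  obtain ⟨c0, hc0d⟩ : ∃ c0 : ℝ, c0 = ‖cc (fderiv ℝ r p) N‖ := ⟨_, rfl⟩
  have hc0 : 0 < c0 := by rw [hc0d]; exact norm_pos_iff.2 hcN0
  obtain ⟨A, hA⟩ : ∃ A : ℂ, A =
      (((hess r p t t - hess r p (Complex.I • t) (Complex.I • t)) / 2 : ℝ) : ℂ) -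
        Complex.I * (hess r p t (Complex.I • t) : ℂ) := ⟨_, rfl⟩
  obtain ⟨q, hq⟩ : ∃ q : ℂ, q = -A / (2 * cc (fderiv ℝ r p) N) := ⟨_, rfl⟩
  have hqc : q * cc (fderiv ℝ r p) N = -A / 2 := by
    rw [hq]; field_simp
  obtain ⟨τ, hτ⟩ : ∃ τ : (Fin n → ℂ) → ℂ,
    τ = fun z => - cc (fderiv ℝ r z) t / cc (fderiv ℝ r z) N := ⟨_, rfl⟩
  obtain ⟨K1, hK1d⟩ : ∃ K1 : ℝ, K1 = 32 * K0 ^ 2 * ‖t‖ * ‖N‖ / c0 ^ 2 := ⟨_, rfl⟩
  have hK1 : 0 ≤ K1 := by rw [hK1d]; positivity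
  obtain ⟨Q, hQd⟩ : ∃ Q : ℝ, Q = 1 + K0 + K1 + ‖q‖ + ‖t‖ + ‖N‖ := ⟨_, rfl⟩
  have nq := norm_nonneg q
  have nt := norm_nonneg t
  have nN := norm_nonneg N
  have hQ1 : 1 ≤ Q := by linarith
  have hQ0 : 0 < Q := by linarith
  have hK0Q : K0 ≤ Q := by linarith
  have hK1Q : K1 ≤ Q := by linarith
  have hqQ : ‖q‖ ≤ Q := by linarith
  have htQ : ‖t‖ ≤ Q := by linarith
  have hNQ : ‖N‖ ≤ Q := by linarith
  have hK00 : 0 ≤ K0 := by linarith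
  have hKN : K0 * ‖N‖ ≤ Q ^ 2 := by
    rw [sq]; exact mul_le_mul hK0Q hNQ nN hQ0.le
  obtain ⟨δ, hδd⟩ : ∃ δ : ℝ, δ = min (δ0 / (4 * Q ^ 2)) (c0 / (4 * Q ^ 2)) := ⟨_, rfl⟩
  have hQ2 : 1 ≤ Q ^ 2 := one_le_pow₀ hQ1
  have h4Q : 0 < 4 * Q ^ 2 := by positivity
  have hδ : 0 < δ := by rw [hδd]; exact lt_min (by positivity) (by positivity)
  have hδa : 4 * Q ^ 2 * δ ≤ δ0 := by
    have : δ ≤ δ0 / (4 * Q ^ 2) := by rw [hδd]; exact min_le_left _ _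
    rw [le_div_iff₀ h4Q] at this
    linarith
  have hδb : 4 * Q ^ 2 * δ ≤ c0 := by
    have : δ ≤ c0 / (4 * Q ^ 2) := by rw [hδd]; exact min_le_right _ _
    rw [le_div_iff₀ h4Q] at this
    linarith
  have hδδ0 : δ ≤ δ0 := by
    have : 1 * δ ≤ (4 * Q ^ 2) * δ := mul_le_mul_of_nonneg_right (by linarith) hδ.le
    linarith
  have hsub : ball p δ ⊆ ball p δ0 := ball_subset_ball hδδ0
  have hpδ0 : p ∈ ball p δ0 := mem_ball_self hδ0
  -- difference of the forms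
  have hdiff : ∀ z ∈ ball p δ0, ∀ z' ∈ ball p δ0, ∀ v : Fin n → ℂ,
      ‖cc (fderiv ℝ r z) v - cc (fderiv ℝ r z') v‖ ≤ 2 * K0 * ‖z - z'‖ * ‖v‖ := by
    intro z hz z' hz' v
    rw [cc_sub]
    refine (cc_norm _ _).trans ?_
    have := mul_le_mul_of_nonneg_right (hlip z hz z' hz') (norm_nonneg v)
    nlinarith
  have hccb : ∀ z ∈ ball p δ0, ∀ v : Fin n → ℂ, ‖cc (fderiv ℝ r z) v‖ ≤ 2 * K0 * ‖v‖ := by
    intro z hz v
    refine (cc_norm _ _).trans ?_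
    have := mul_le_mul_of_nonneg_right (hfd z hz) (norm_nonneg v)
    nlinarith
  have hlow : ∀ z ∈ ball p δ, c0 / 2 ≤ ‖cc (fderiv ℝ r z) N‖ := by
    intro z hz
    have h1 := hdiff p hpδ0 z (hsub hz) N
    have h2 : ‖cc (fderiv ℝ r p) N‖ - ‖cc (fderiv ℝ r z) N‖ ≤
        ‖cc (fderiv ℝ r p) N - cc (fderiv ℝ r z) N‖ := norm_sub_norm_le _ _
    have h3 : ‖p - z‖ ≤ δ := by
      rw [norm_sub_rev]; exact (mem_ball_iff_norm.1 hz).le
    have h4 : 2 * K0 * ‖p - z‖ * ‖N‖ ≤ 2 * Q ^ 2 * δ := by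
      have : (K0 * ‖N‖) * ‖p - z‖ ≤ Q ^ 2 * δ :=
        mul_le_mul hKN h3 (norm_nonneg _) (by positivity)
      linarith
    linarith
  have hccp : cc (fderiv ℝ r p) t = 0 := by simp [cc, ht1, ht2]
  have hτp : τ p = 0 := by simp only [hτ]; rw [hccp]; simp
  have hτlip : ∀ z ∈ ball p δ, ∀ z' ∈ ball p δ, ‖τ z - τ z'‖ ≤ K1 * ‖z - z'‖ := by
    intro z hz z' hz'
    rw [hK1d, hτ]
    refine tau_lip (k := K0) (s := ‖z - z'‖) (t' := ‖t‖) (m := ‖N‖) hc0 hK00 (norm_nonneg _) nt nN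
      (hlow z hz) (hlow z' hz') ?_ (hdiff z (hsub hz) z' (hsub hz') N) (hccb z' (hsub hz') N)
      (hccb z' (hsub hz') t)
    have := hdiff z' (hsub hz') z (hsub hz) t
    rwa [norm_sub_rev z' z] at this
  have hsymm : hess r p (Complex.I • t) t = hess r p t (Complex.I • t) := by
    have h := (hr.contDiffAt (hU.mem_nhds hpU)).isSymmSndFDerivAt (by
      rw [minSmoothness_of_isRCLikeNormedField]; exact WithTop.coe_le_coe.2 le_top)
    exact h _ _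
  have hQ7 : Q ≤ Q ^ 7 := le_self_pow₀ hQ1 (by norm_num)
  have hQ70 : 0 ≤ Q ^ 7 := by positivity
  refine ⟨N, q, τ, 200 * Q ^ 7, δ, by linarith, hδ, by linarith, by linarith, by linarith, hτp,
    (hsub.trans (ball_subset_ball (by linarith))).trans hball, ?_, ?_⟩
  · intro z hz z' hz'
    refine (hτlip z hz z' hz').trans (mul_le_mul_of_nonneg_right (by linarith) (norm_nonneg _))
  intro z hz ζ hζ ξ hξ
  have hz0 := hsub hz
  have hza : ‖z - p‖ < δ := mem_ball_iff_norm.1 hz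
  have ha0 := norm_nonneg (z - p)
  have hb0 := norm_nonneg ζ
  have he0 := norm_nonneg ξ
  have hδ11 : δ ≤ 1 := by linarith
  have hab2 : ‖z - p‖ + ‖ζ‖ ≤ 2 := by linarith
  have hcNz : cc (fderiv ℝ r z) N ≠ 0 := by
    intro h
    have := hlow z hz
    rw [h, norm_zero] at this
    linarith
  obtain ⟨s, hs⟩ : ∃ s : ℂ, s = τ z * ζ + q * ζ ^ 2 := ⟨_, rfl⟩
  obtain ⟨v', hv'⟩ : ∃ v' : Fin n → ℂ, v' = s • N + ξ := ⟨_, rfl⟩
  obtain ⟨v, hv⟩ : ∃ v : Fin n → ℂ, v = ζ • t + v' := ⟨_, rfl⟩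
  have hphi : phi t N q τ z ζ + ξ = z + v := by
    simp only [phi, hv, hv', hs]
    abel
  obtain ⟨y, hy⟩ : ∃ y : ℝ, y = Q ^ 2 * ((‖z - p‖ + ‖ζ‖) * ‖ζ‖) + ‖ξ‖ := ⟨_, rfl⟩
  have hy0 : 0 ≤ y := by rw [hy]; positivity
  have hsn : ‖s‖ ≤ Q * ((‖z - p‖ + ‖ζ‖) * ‖ζ‖) := by
    have h1 : ‖τ z‖ ≤ K1 * ‖z - p‖ := by
      have := hτlip z hz p (mem_ball_self hδ)
      rwa [hτp, sub_zero] at this
    have h2 : ‖s‖ ≤ ‖τ z‖ * ‖ζ‖ + ‖q‖ * ‖ζ‖ ^ 2 := by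
      rw [hs]
      refine (norm_add_le _ _).trans (le_of_eq ?_)
      rw [norm_mul, norm_mul, norm_pow]
    have h3 : ‖τ z‖ * ‖ζ‖ ≤ (K1 * ‖z - p‖) * ‖ζ‖ := mul_le_mul_of_nonneg_right h1 hb0
    have h4 : K1 * (‖z - p‖ * ‖ζ‖) ≤ Q * (‖z - p‖ * ‖ζ‖) :=
      mul_le_mul_of_nonneg_right hK1Q (by positivity)
    have h5 : ‖q‖ * ‖ζ‖ ^ 2 ≤ Q * ‖ζ‖ ^ 2 := mul_le_mul_of_nonneg_right hqQ (by positivity)
    have h6 : Q * ((‖z - p‖ + ‖ζ‖) * ‖ζ‖) = Q * (‖z - p‖ * ‖ζ‖) + Q * ‖ζ‖ ^ 2 := by ring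
    linarith
  have hv'n : ‖v'‖ ≤ y := by
    have h1 : ‖v'‖ ≤ ‖s‖ * ‖N‖ + ‖ξ‖ := by
      rw [hv']
      refine (norm_add_le _ _).trans ?_
      rw [norm_smul]
    have h2 : ‖s‖ * ‖N‖ ≤ (Q * ((‖z - p‖ + ‖ζ‖) * ‖ζ‖)) * Q :=
      mul_le_mul hsn hNQ nN (by positivity)
    have h3 : (Q * ((‖z - p‖ + ‖ζ‖) * ‖ζ‖)) * Q = Q ^ 2 * ((‖z - p‖ + ‖ζ‖) * ‖ζ‖) := by ring
    linarith
  have hζt : ‖ζ • t‖ ≤ Q * ‖ζ‖ := by
    rw [norm_smul, mul_comm]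
    exact mul_le_mul_of_nonneg_right htQ hb0
  have hvn : ‖v‖ ≤ Q * ‖ζ‖ + y := by
    rw [hv]
    exact (norm_add_le _ _).trans (by linarith)
  have hvδ : ‖v‖ < δ0 := by
    have h1 : (‖z - p‖ + ‖ζ‖) * ‖ζ‖ ≤ 2 * ‖ζ‖ := mul_le_mul_of_nonneg_right hab2 hb0
    have h2 : Q ^ 2 * ((‖z - p‖ + ‖ζ‖) * ‖ζ‖) ≤ Q ^ 2 * (2 * ‖ζ‖) :=
      mul_le_mul_of_nonneg_left h1 (by positivity)
    have h3 : Q * ‖ζ‖ ≤ Q ^ 2 * ‖ζ‖ :=
      mul_le_mul_of_nonneg_right (le_self_pow₀ hQ1 (by norm_num)) hb0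
    have h4 : Q ^ 2 * ‖ζ‖ ≤ Q ^ 2 * δ := mul_le_mul_of_nonneg_left hζ.le (by positivity)
    have h5 : δ ≤ Q ^ 2 * δ := by
      have := mul_le_mul_of_nonneg_right hQ2 hδ.le
      linarith
    linarith
  constructor
  · rw [hphi]
    apply hball
    rw [mem_ball_iff_norm]
    have : z + v - p = (z - p) + v := by abel
    rw [this]
    refine (norm_add_le _ _).trans_lt ?_
    linarith
  · rw [hphi]
    -- the three errors
    have hE3 := htay z hz0 v hvδ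
    have hE1 : |fderiv ℝ r z v + (A * ζ ^ 2).re / 2| ≤
        2 * Q ^ 3 * ‖z - p‖ * ‖ζ‖ ^ 2 + Q * ‖ξ‖ := by
      have e1 : cc (fderiv ℝ r z) v + A * ζ ^ 2 / 2 =
          q * ζ ^ 2 * (cc (fderiv ℝ r z) N - cc (fderiv ℝ r p) N) + cc (fderiv ℝ r z) ξ := by
        have h1 : τ z * cc (fderiv ℝ r z) N = - cc (fderiv ℝ r z) t := by
          simp only [hτ]
          field_simp
        rw [hv, hv', cc_add, cc_add, cc_smul, cc_smul, hs]
        linear_combination ζ * h1 + ζ ^ 2 * hqc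
      have e2 : fderiv ℝ r z v + (A * ζ ^ 2).re / 2 =
          (q * ζ ^ 2 * (cc (fderiv ℝ r z) N - cc (fderiv ℝ r p) N)).re + fderiv ℝ r z ξ := by
        have := congrArg Complex.re e1
        rw [Complex.add_re, Complex.add_re, cc_re, cc_re] at this
        rw [← this]
        congr 1
        simp
      rw [e2]
      refine (abs_add_le _ _).trans ?_
      have h2 : |(q * ζ ^ 2 * (cc (fderiv ℝ r z) N - cc (fderiv ℝ r p) N)).re| ≤
          2 * Q ^ 3 * ‖z - p‖ * ‖ζ‖ ^ 2 := by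
        refine (Complex.abs_re_le_norm _).trans ?_
        rw [norm_mul, norm_mul, norm_pow]
        have h3 := hdiff z hz0 p hpδ0 N
        have h4 : ‖q‖ * ‖ζ‖ ^ 2 * ‖cc (fderiv ℝ r z) N - cc (fderiv ℝ r p) N‖ ≤
            ‖q‖ * ‖ζ‖ ^ 2 * (2 * K0 * ‖z - p‖ * ‖N‖) :=
          mul_le_mul_of_nonneg_left h3 (by positivity)
        have h5 : ‖q‖ * (K0 * ‖N‖) ≤ Q * Q ^ 2 :=
          mul_le_mul hqQ hKN (by positivity) hQ0.le
        have h6 : ‖q‖ * (K0 * ‖N‖) * (2 * ‖z - p‖ * ‖ζ‖ ^ 2) ≤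
            Q * Q ^ 2 * (2 * ‖z - p‖ * ‖ζ‖ ^ 2) :=
          mul_le_mul_of_nonneg_right h5 (by positivity)
        have h7 : ‖q‖ * ‖ζ‖ ^ 2 * (2 * K0 * ‖z - p‖ * ‖N‖) =
          ‖q‖ * (K0 * ‖N‖) * (2 * ‖z - p‖ * ‖ζ‖ ^ 2) := by ring
        have h8 : Q * Q ^ 2 * (2 * ‖z - p‖ * ‖ζ‖ ^ 2) = 2 * Q ^ 3 * ‖z - p‖ * ‖ζ‖ ^ 2 := by ring
        linarith
      have h3 : |fderiv ℝ r z ξ| ≤ Q * ‖ξ‖ := by
        rw [← Real.norm_eq_abs]
        refine ((fderiv ℝ r z).le_opNorm ξ).trans ?_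
        exact mul_le_mul_of_nonneg_right ((hfd z hz0).trans hK0Q) he0
      linarith
    have hE2 : |hess r p v v / 2 - hess r p (ζ • t) (ζ • t) / 2| ≤
        Q / 2 * (2 * (Q * ‖ζ‖) * y + y ^ 2) := by
      have e1 : hess r p v v - hess r p (ζ • t) (ζ • t) =
          hess r p (ζ • t) v' + hess r p v' (ζ • t) + hess r p v' v' := by
        rw [hv]
        unfold hess
        simp only [map_add, add_apply]
        ring
      have h1 : |hess r p (ζ • t) v'| ≤ Q * (Q * ‖ζ‖) * y := by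
        refine (hhess _ _).trans ?_
        exact mul_le_mul (mul_le_mul hK0Q hζt (norm_nonneg _) hQ0.le) hv'n (norm_nonneg _)
          (by positivity)
      have h2 : |hess r p v' (ζ • t)| ≤ Q * y * (Q * ‖ζ‖) := by
        refine (hhess _ _).trans ?_
        exact mul_le_mul (mul_le_mul hK0Q hv'n (norm_nonneg _) hQ0.le) hζt (norm_nonneg _)
          (by positivity)
      have h3 : |hess r p v' v'| ≤ Q * y * y := by
        refine (hhess _ _).trans ?_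
        exact mul_le_mul (mul_le_mul hK0Q hv'n (norm_nonneg _) hQ0.le) hv'n (norm_nonneg _)
          (by positivity)
      have h4 : |hess r p v v - hess r p (ζ • t) (ζ • t)| ≤
          Q * (Q * ‖ζ‖) * y + Q * y * (Q * ‖ζ‖) + Q * y * y := by
        rw [e1]
        refine (abs_add_le _ _).trans (add_le_add ((abs_add_le _ _).trans (add_le_add h1 h2)) h3)
      have h5 : hess r p v v / 2 - hess r p (ζ • t) (ζ • t) / 2 =
          (hess r p v v - hess r p (ζ • t) (ζ • t)) / 2 := by ring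
      rw [h5, abs_div, abs_of_pos (by norm_num : (0 : ℝ) < 2), div_le_iff₀ (by norm_num)]
      refine h4.trans (le_of_eq ?_)
      ring
    have hquad := hess_quad r p t ζ hsymm
    rw [← hA] at hquad
    have hsum : r (z + v) - r z - levi r p t * ‖ζ‖ ^ 2 =
        (fderiv ℝ r z v + (A * ζ ^ 2).re / 2) +
          (hess r p v v / 2 - hess r p (ζ • t) (ζ • t) / 2) +
          (r (z + v) - r z - fderiv ℝ r z v - hess r p v v / 2) := by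
      rw [hquad]; ring
    rw [hsum]
    have hE3' : |r (z + v) - r z - fderiv ℝ r z v - hess r p v v / 2| ≤
        Q * (‖z - p‖ + ‖v‖) * ‖v‖ ^ 2 := by
      refine hE3.trans ?_
      refine mul_le_mul_of_nonneg_right (mul_le_mul_of_nonneg_right hK0Q ?_) ?_ <;> positivity
    refine (abs_add_le _ _).trans ?_
    refine (add_le_add_left (abs_add_le _ _) _).trans ?_
    have := est (Q := Q) (a := ‖z - p‖) (b := ‖ζ‖) (e := ‖ξ‖) (y := y) (V := ‖v‖) hQ1 ha0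
      (by linarith) hb0 (by linarith) he0 (by linarith) hy0 hy.le (norm_nonneg v) hvn hE1 hE2
      hE3'
    exact this

end Pool.Agent.H68R3.BB
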