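import Pool.Agent.H68R3.BB.Stmts

/-!
# Sub-mean value inequality over a product of balls (`TaskMean`), by helper662
-/

set_option autoImplicit false

open MeasureTheory Topology Filter Set Metric
open scoped ENNReal NNReal ContDiff

namespace Pool.Agent.H68R3.BB

section Mean

/-- multiplication by a number of modulus one preserves the volume of `ℂ × ℂⁿ` -/
theorem mean_mp (n : ℕ) (a : Circle) :
    MeasurePreserving (fun x : ℂ × (Fin n → ℂ) => (a : ℂ) • x) volume volume := by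
  have h1 : MeasurePreserving (fun z : ℂ => (a : ℂ) * z) volume volume := by
    have := (rotation a).measurePreserving
    exact this
  have h2 : MeasurePreserving (fun (z : Fin n → ℂ) (i : Fin n) => (a : ℂ) * z i) volume volume :=
    volume_preserving_pi (fun _ => h1)
  exact h1.prod h2

variable {n : ℕ}

theorem mean_pointwise (h : ℂ × (Fin n → ℂ) → ℂ) (U : Set (ℂ × (Fin n → ℂ))) (hU : IsOpen U)
    (hbal : ∀ x ∈ U, ∀ u : ℂ, ‖u‖ ≤ 1 → u • x ∈ U) (hd : DifferentiableOn ℂ h U)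
    (x : ℂ × (Fin n → ℂ)) (hx : x ∈ U) :
    ‖h 0‖ₑ ^ 2 ≤ ENNReal.ofReal ((2 * Real.pi)⁻¹) *
      ∫⁻ θ in Ioc (0 : ℝ) (2 * Real.pi), ‖h (circleMap 0 1 θ • x)‖ₑ ^ 2 := by
  have hF : DiffContOnCl ℂ (fun u : ℂ => h (u • x) ^ 2) (ball 0 |1|) := by
    apply DifferentiableOn.diffContOnCl
    rw [abs_one, closure_ball _ one_ne_zero]
    intro u hu
    rw [mem_closedBall_zero_iff] at hu
    apply DifferentiableAt.differentiableWithinAt
    have h1 : DifferentiableAt ℂ h (u • x) :=
      (hd _ (hbal x hx u hu)).differentiableAt (hU.mem_nhds (hbal x hx u hu))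
    have h2 : DifferentiableAt ℂ (fun u : ℂ => u • x) u := by fun_prop
    exact (h1.comp u h2).pow 2
  have hm := hF.circleAverage
  rw [Real.circleAverage_def] at hm
  simp only [zero_smul] at hm
  have h3 : ‖h 0‖ₑ ^ 2 = ‖h 0 ^ 2‖ₑ := by rw [enorm_pow]
  rw [h3, ← hm, enorm_smul, intervalIntegral.integral_of_le (by positivity)]
  have h4 : ‖(2 * Real.pi)⁻¹‖ₑ = ENNReal.ofReal ((2 * Real.pi)⁻¹) :=
    Real.enorm_of_nonneg (by positivity)
  rw [h4]
  gcongr
  refine (enorm_integral_le_lintegral_enorm _).trans ?_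
  apply lintegral_mono
  intro θ
  simp only [enorm_pow]
  exact le_rfl

theorem taskMean : TaskMean := by
  classical
  intro n h ρ σ hρ hσ hd
  set U : Set (ℂ × (Fin n → ℂ)) := ball (0 : ℂ) ρ ×ˢ ball (0 : Fin n → ℂ) σ with hUdef
  have hU : IsOpen U := isOpen_ball.prod isOpen_ball
  have hbal : ∀ x ∈ U, ∀ u : ℂ, ‖u‖ ≤ 1 → u • x ∈ U := by
    rintro ⟨z, w⟩ ⟨hz, hw⟩ u hu
    rw [mem_ball_zero_iff] at hz hw
    refine ⟨?_, ?_⟩
    · rw [mem_ball_zero_iff]
      show ‖u • z‖ < ρ
      rw [norm_smul]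
      exact (mul_le_of_le_one_left (norm_nonneg _) hu).trans_lt hz
    · rw [mem_ball_zero_iff]
      show ‖u • w‖ < σ
      rw [norm_smul]
      exact (mul_le_of_le_one_left (norm_nonneg _) hu).trans_lt hw
  set G : ℂ × (Fin n → ℂ) → ℝ≥0∞ := U.indicator (fun x => ‖h x‖ₑ ^ 2) with hG
  have hcont : ContinuousOn (fun x => ‖h x‖ₑ ^ 2) U :=
    (ENNReal.continuous_pow 2).comp_continuousOn (continuous_enorm.comp_continuousOn hd.continuousOn)
  have hGm : Measurable G := by
    rw [hG, ← Set.piecewise_eq_indicator]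
    exact hcont.measurable_piecewise continuousOn_const hU.measurableSet
  have hvol : volume (ball (0 : ℂ) ρ) * volume (ball (0 : Fin n → ℂ) σ) = volume U := by
    rw [hUdef, Measure.volume_eq_prod, Measure.prod_prod]
  have hright : ∫⁻ ζ in ball (0 : ℂ) ρ, ∫⁻ ξ in ball (0 : Fin n → ℂ) σ, ‖h (ζ, ξ)‖ₑ ^ 2 =
      ∫⁻ x, G x := by
    rw [hG, lintegral_indicator hU.measurableSet, hUdef, Measure.volume_eq_prod, setLIntegral_prod]
    exact (hcont.aemeasurable hU.measurableSet)
  rw [hvol, hright]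
  have hpi : ENNReal.ofReal ((2 * Real.pi)⁻¹) * ENNReal.ofReal (2 * Real.pi) = 1 := by
    rw [← ENNReal.ofReal_mul (by positivity), inv_mul_cancel₀ (by positivity), ENNReal.ofReal_one]
  have hcm : ∀ θ : ℝ, circleMap 0 1 θ = ((Circle.exp θ : Circle) : ℂ) := by
    intro θ
    simp [circleMap]
  calc ‖h 0‖ₑ ^ 2 * volume U = ∫⁻ x in U, ‖h 0‖ₑ ^ 2 := by rw [setLIntegral_const]
    _ ≤ ∫⁻ x in U, ENNReal.ofReal ((2 * Real.pi)⁻¹) *
          ∫⁻ θ in Ioc (0 : ℝ) (2 * Real.pi), G (circleMap 0 1 θ • x) := by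
        apply setLIntegral_mono' hU.measurableSet
        intro x hx
        refine (mean_pointwise h U hU hbal hd x hx).trans ?_
        gcongr with θ
        rw [hG, Set.indicator_of_mem]
        refine hbal x hx _ ?_
        rw [norm_circleMap_zero, abs_one]
    _ ≤ ∫⁻ x, ENNReal.ofReal ((2 * Real.pi)⁻¹) *
          ∫⁻ θ in Ioc (0 : ℝ) (2 * Real.pi), G (circleMap 0 1 θ • x) := setLIntegral_le_lintegral _ _
    _ = ENNReal.ofReal ((2 * Real.pi)⁻¹) *
          ∫⁻ x, ∫⁻ θ in Ioc (0 : ℝ) (2 * Real.pi), G (circleMap 0 1 θ • x) := by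
        rw [lintegral_const_mul']
        exact ENNReal.ofReal_ne_top
    _ = ENNReal.ofReal ((2 * Real.pi)⁻¹) *
          ∫⁻ θ in Ioc (0 : ℝ) (2 * Real.pi), ∫⁻ x, G (circleMap 0 1 θ • x) := by
        congr 1
        apply lintegral_lintegral_swap
        apply Measurable.aemeasurable
        apply hGm.comp
        have : Continuous fun p : (ℂ × (Fin n → ℂ)) × ℝ => circleMap 0 1 p.2 • p.1 := by
          have := continuous_circleMap (0 : ℂ) 1
          fun_prop
        exact this.measurable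
    _ = ENNReal.ofReal ((2 * Real.pi)⁻¹) *
          ∫⁻ θ in Ioc (0 : ℝ) (2 * Real.pi), ∫⁻ x, G x := by
        congr 1
        apply lintegral_congr
        intro θ
        rw [hcm]
        exact (mean_mp n (Circle.exp θ)).lintegral_comp hGm
    _ = ∫⁻ x, G x := by
        rw [setLIntegral_const, Real.volume_Ioc, sub_zero, mul_comm (∫⁻ x, G x), ← mul_assoc, hpi,
          one_mul]

end Mean

end Pool.Agent.H68R3.BB
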