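import Pool.Agent.H68R3.BB.Stmts

set_option autoImplicit false

open MeasureTheory Topology Filter Set Metric
open scoped ENNReal NNReal ContDiff

namespace Pool.Agent.H68R3.BB

theorem taskMid (hT : TaskTaylor) : TaskMid := by
  intro n r U p hU hp hr hrp
  obtain ⟨K, δ, hK, hδ, hδ1, hball, hhess, hfd, _, htay⟩ := hT n r U p hU hp hr
  have hK0 : 0 ≤ K := by linarith
  refine ⟨3 * K, δ, by linarith, hδ, hδ1, ?_, ?_, ?_, ?_⟩
  · exact (ball_subset_ball (by linarith)).trans hball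
  · intro u v
    have h1 := hhess u v
    have h2 : 0 ≤ ‖u‖ * ‖v‖ := by positivity
    nlinarith
  · intro z hz
    have hz' : ‖z - p‖ < δ := by rwa [mem_ball, dist_eq_norm] at hz
    have h1 := htay p (mem_ball_self hδ) (z - p) hz'
    rw [add_sub_cancel, sub_self, norm_zero, zero_add, hrp, sub_zero] at h1
    have h2 : |fderiv ℝ r p (z - p)| ≤ K * ‖z - p‖ := by
      have h3 := (fderiv ℝ r p).le_opNorm (z - p)
      rw [Real.norm_eq_abs] at h3
      exact h3.trans (mul_le_mul_of_nonneg_right (hfd p (mem_ball_self hδ)) (norm_nonneg _))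
    have h3 := hhess (z - p) (z - p)
    have hn : 0 ≤ ‖z - p‖ := norm_nonneg _
    have hn1 : ‖z - p‖ ≤ 1 := by linarith
    have h4 : ‖z - p‖ * ‖z - p‖ ≤ ‖z - p‖ := by nlinarith
    have h5 : K * ‖z - p‖ * ‖z - p‖ ≤ K * ‖z - p‖ := by nlinarith
    have h6 : K * ‖z - p‖ * ‖z - p‖ ^ 2 ≤ K * ‖z - p‖ := by
      have : ‖z - p‖ ^ 2 ≤ 1 := by nlinarith
      have h7 : 0 ≤ K * ‖z - p‖ := by positivity
      nlinarith
    have e1 := abs_le.1 h1
    have e2 := abs_le.1 h2
    have e3 := abs_le.1 h3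
    rw [abs_le]
    have h8 : 0 ≤ K * ‖z - p‖ := by positivity
    constructor
    · linarith [e1.1, e2.1, e3.1]
    · linarith [e1.2, e2.2, e3.2]
  · intro z hz z' hz'
    have hz1 : ‖z - p‖ < δ := by rwa [mem_ball, dist_eq_norm] at hz
    have hz2 : ‖z' - p‖ < δ := by rwa [mem_ball, dist_eq_norm] at hz'
    set m : Fin n → ℂ := (1 / 2 : ℝ) • (z + z') with hm
    set v : Fin n → ℂ := (1 / 2 : ℝ) • (z - z') with hv
    have hzm : m + v = z := by
      rw [hm, hv, ← smul_add]
      have : z + z' + (z - z') = (2 : ℝ) • z := by rw [two_smul]; abel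
      rw [this, smul_smul]; norm_num
    have hzm' : m + -v = z' := by
      rw [hm, hv, ← sub_eq_add_neg, ← smul_sub]
      have : z + z' - (z - z') = (2 : ℝ) • z' := by rw [two_smul]; abel
      rw [this, smul_smul]; norm_num
    have hvn : ‖v‖ = ‖z - z'‖ / 2 := by
      rw [hv, norm_smul]
      norm_num
      ring
    have htri : ‖z - z'‖ ≤ ‖z - p‖ + ‖z' - p‖ := by
      have : z - z' = (z - p) - (z' - p) := by abel
      rw [this]
      exact norm_sub_le _ _
    have hmp : ‖m - p‖ ≤ (‖z - p‖ + ‖z' - p‖) / 2 := by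
      have : m - p = (1 / 2 : ℝ) • ((z - p) + (z' - p)) := by
        rw [hm]
        have h2 : p = (1 / 2 : ℝ) • (p + p) := by
          rw [← two_smul ℝ p, smul_smul]; norm_num
        conv_lhs => rw [h2]
        rw [← smul_sub]
        congr 1
        abel
      rw [this, norm_smul]
      have h3 := norm_add_le (z - p) (z' - p)
      have h4 : ‖(1 / 2 : ℝ)‖ = 1 / 2 := by norm_num
      rw [h4]
      linarith
    have hvδ : ‖v‖ < δ := by rw [hvn]; linarith
    have hmb : m ∈ ball p δ := by rw [mem_ball, dist_eq_norm]; linarith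
    have h1 := htay m hmb v hvδ
    have h2 := htay m hmb (-v) (by rwa [norm_neg])
    rw [hzm] at h1
    rw [hzm', norm_neg] at h2
    have hh1 : hess r p (-v) (-v) = hess r p v v := by
      unfold hess
      rw [map_neg, map_neg, ContinuousLinearMap.neg_apply, neg_neg]
    have hh2 : hess r p (z - z') (z - z') / 4 = hess r p v v := by
      unfold hess
      have h3 : fderiv ℝ (fderiv ℝ r) p v = (1 / 2 : ℝ) • fderiv ℝ (fderiv ℝ r) p (z - z') := by
        rw [hv, map_smul]
      rw [h3, ContinuousLinearMap.smul_apply]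
      have h4 : fderiv ℝ (fderiv ℝ r) p (z - z') v
          = (1 / 2 : ℝ) • fderiv ℝ (fderiv ℝ r) p (z - z') (z - z') := by
        rw [hv, map_smul]
      rw [h4, smul_eq_mul, smul_eq_mul]
      ring
    rw [hh1, map_neg] at h2
    rw [hh2]
    have h3 : K * (‖m - p‖ + ‖v‖) * ‖v‖ ^ 2 ≤
        K * (‖z - p‖ + ‖z' - p‖) * ‖z - z'‖ ^ 2 / 4 := by
      rw [hvn]
      have h4 : ‖m - p‖ + ‖z - z'‖ / 2 ≤ ‖z - p‖ + ‖z' - p‖ := by linarith
      have h5 : 0 ≤ ‖z - z'‖ ^ 2 := by positivity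
      have h6 := mul_le_mul_of_nonneg_left h4 hK0
      have h7 := mul_le_mul_of_nonneg_right h6 h5
      have h8 : K * (‖m - p‖ + ‖z - z'‖ / 2) * (‖z - z'‖ / 2) ^ 2
          = K * (‖m - p‖ + ‖z - z'‖ / 2) * ‖z - z'‖ ^ 2 / 4 := by ring
      rw [h8]
      linarith
    have h9 : 0 ≤ K * (‖z - p‖ + ‖z' - p‖) * ‖z - z'‖ ^ 2 := by positivity
    have e1 := abs_le.1 h1
    have e2 := abs_le.1 h2
    rw [abs_le]
    constructor
    · linarith [e1.1, e2.1]
    · linarith [e1.2, e2.2]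

end Pool.Agent.H68R3.BB
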