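import Mathlib
import Pool.Agent.H68R3.BB.Stmts

set_option autoImplicit false

open MeasureTheory Topology Filter Set Metric
open scoped ENNReal NNReal

namespace Pool.Agent.H68R3.BB

lemma vol_four {n : ℕ} (x : Fin n → ℂ) (σ : ℝ) (hσ : 0 < σ) :
    volume (ball x (4 * σ)) = ENNReal.ofReal (16 ^ n) * volume (ball (0 : Fin n → ℂ) σ) := by
  rw [Measure.addHaar_ball_of_pos volume x (by positivity : (0 : ℝ) < 4 * σ),
    Measure.addHaar_ball_of_pos volume (0 : Fin n → ℂ) hσ, ← mul_assoc,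
    ← ENNReal.ofReal_mul (by positivity)]
  congr 2
  have h : Module.finrank ℝ (Fin n → ℂ) = 2 * n := by
    rw [Module.finrank_pi_fintype]; simp [Complex.finrank_real_complex, mul_comm]
  rw [h, mul_pow, pow_mul]
  norm_num

theorem taskShell : TaskMean → TaskArea → TaskShell := by
  intro hMean hArea n S T Φ ρ σ L e f hρ hσ hL he hS hT hΦ0 hΦc hΦd hf hΦT hinj hstrip
  classical
  let g : (Fin n → ℂ) → ℝ≥0∞ := T.indicator (fun w => ‖f w‖ₑ ^ 2)
  have hg : Measurable g := by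
    have h1 : ContinuousOn (fun w => ‖f w‖ₑ ^ 2) T :=
      (ENNReal.continuous_pow 2).comp_continuousOn (continuous_enorm.comp_continuousOn hf.continuousOn)
    have h2 := ContinuousOn.measurable_piecewise (g := fun _ => (0 : ℝ≥0∞)) h1
      continuousOn_const hT.measurableSet
    have h3 : g = T.piecewise (fun w => ‖f w‖ₑ ^ 2) (fun _ => 0) := by
      funext w
      by_cases hw : w ∈ T
      · simp [g, hw]
      · simp [g, hw]
    rw [h3]; exact h2
  let E : Set ((Fin n → ℂ) × ℂ × (Fin n → ℂ)) :=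
    {x | x.1 ∈ S ∧ x.2.1 ∈ ball (0 : ℂ) ρ ∧ ‖x.2.2 - Φ x.1 x.2.1‖ < σ}
  have hE : IsOpen E := by
    let s : Set ((Fin n → ℂ) × ℂ × (Fin n → ℂ)) := {x | x.1 ∈ S ∧ x.2.1 ∈ ball (0 : ℂ) ρ}
    have hs : IsOpen s := (hS.preimage continuous_fst).inter
      (isOpen_ball.preimage (continuous_fst.comp continuous_snd))
    have hc : ContinuousOn (fun x : (Fin n → ℂ) × ℂ × (Fin n → ℂ) => ‖x.2.2 - Φ x.1 x.2.1‖) s := by
      apply ContinuousOn.norm
      apply ContinuousOn.sub (continuous_snd.comp continuous_snd).continuousOn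
      exact hΦc.comp (f := fun x : (Fin n → ℂ) × ℂ × (Fin n → ℂ) => (x.1, x.2.1))
        (continuous_fst.prodMk (continuous_fst.comp continuous_snd)).continuousOn
        (fun x hx => ⟨hx.1, mem_univ _⟩)
    have := hc.isOpen_inter_preimage hs (isOpen_Iio (a := σ))
    convert this using 1
    ext x
    constructor
    · rintro ⟨h1, h2, h3⟩; exact ⟨⟨h1, h2⟩, h3⟩
    · rintro ⟨⟨h1, h2⟩, h3⟩; exact ⟨h1, h2, h3⟩
  let F : (Fin n → ℂ) → ℂ → (Fin n → ℂ) → ℝ≥0∞ := fun z ζ w =>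
    E.indicator (fun x => g x.2.2) (z, ζ, w)
  have hF : Measurable (fun x : (Fin n → ℂ) × ℂ × (Fin n → ℂ) => F x.1 x.2.1 x.2.2) := by
    have : (fun x : (Fin n → ℂ) × ℂ × (Fin n → ℂ) => F x.1 x.2.1 x.2.2) =
      E.indicator (fun x => g x.2.2) := by
      funext x; rfl
    rw [this]
    exact (hg.comp (measurable_snd.comp measurable_snd)).indicator hE.measurableSet
  set V1 := volume (ball (0 : ℂ) ρ) with hV1
  set V2 := volume (ball (0 : Fin n → ℂ) σ) with hV2
  -- pointwise mean value bound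
  have hpt : ∀ z ∈ S, ‖f z‖ₑ ^ 2 * (V1 * V2) ≤ ∫⁻ ζ, ∫⁻ w, F z ζ w := by
    intro z hz
    have h1 := hMean n (fun x => f (Φ z x.1 + x.2)) ρ σ hρ hσ (by
      have hin : Differentiable ℂ (fun x : ℂ × (Fin n → ℂ) => Φ z x.1 + x.2) :=
        ((hΦd z).comp differentiable_fst).add differentiable_snd
      refine hf.comp hin.differentiableOn ?_
      rintro ⟨ζ, ξ⟩ ⟨h1, h2⟩
      simp only [mem_ball_zero_iff] at h1 h2
      exact hΦT z hz ζ h1 ξ h2)
    have h0 : f (Φ z (0 : ℂ × (Fin n → ℂ)).1 + (0 : ℂ × (Fin n → ℂ)).2) = f z := by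
      simp [hΦ0]
    simp only [h0] at h1
    refine h1.trans ?_
    rw [← lintegral_indicator measurableSet_ball]
    refine lintegral_mono fun ζ => ?_
    by_cases hζ : ζ ∈ ball (0 : ℂ) ρ
    · rw [indicator_of_mem hζ, ← lintegral_indicator measurableSet_ball]
      rw [← lintegral_sub_right_eq_self _ (Φ z ζ)]
      refine lintegral_mono fun w => ?_
      by_cases hw : w - Φ z ζ ∈ ball (0 : Fin n → ℂ) σ
      · rw [indicator_of_mem hw]
        have hw' : ‖w - Φ z ζ‖ < σ := by simpa using hw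
        have hζ' : ‖ζ‖ < ρ := by simpa using hζ
        have hT' : w ∈ T := by
          have := hΦT z hz ζ hζ' (w - Φ z ζ) hw'
          simpa using this
        have hEm : (z, ζ, w) ∈ E := ⟨hz, hζ, hw'⟩
        simp only [F]
        rw [indicator_of_mem hEm]
        simp only [g]
        rw [indicator_of_mem hT']
        simp
      · rw [indicator_of_notMem hw]; exact bot_le
    · rw [indicator_of_notMem hζ]; exact bot_le
  have hV1' : V1 ≠ ∞ := measure_ball_lt_top.ne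
  have hV2' : V2 ≠ ∞ := measure_ball_lt_top.ne
  have hV1'' : V1 ≠ 0 := (measure_ball_pos volume _ hρ).ne'
  have hV2'' : V2 ≠ 0 := (measure_ball_pos volume _ hσ).ne'
  have h1 : (∫⁻ z in S, ‖f z‖ₑ ^ 2) * (V1 * V2) ≤ ∫⁻ z, ∫⁻ ζ, ∫⁻ w, F z ζ w := by
    rw [← lintegral_mul_const' _ _ (ENNReal.mul_ne_top hV1' hV2')]
    exact (setLIntegral_mono' hS.measurableSet hpt).trans (setLIntegral_le_lintegral _ _)
  -- Tonelli
  have h2 : ∫⁻ z, ∫⁻ ζ, ∫⁻ w, F z ζ w = ∫⁻ w, ∫⁻ ζ, ∫⁻ z, F z ζ w := by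
    have e1 : ∀ z, ∫⁻ ζ, ∫⁻ w, F z ζ w = ∫⁻ w, ∫⁻ ζ, F z ζ w := by
      intro z
      apply lintegral_lintegral_swap
      have : Measurable (fun x : ℂ × (Fin n → ℂ) => F z x.1 x.2) :=
        hF.comp (measurable_const.prodMk (measurable_fst.prodMk measurable_snd))
      exact this.aemeasurable
    simp_rw [e1]
    have e2 : ∫⁻ z, ∫⁻ w, ∫⁻ ζ, F z ζ w = ∫⁻ w, ∫⁻ z, ∫⁻ ζ, F z ζ w := by
      apply lintegral_lintegral_swap
      have h3 : Measurable (fun x : ((Fin n → ℂ) × (Fin n → ℂ)) × ℂ => F x.1.1 x.2 x.1.2) :=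
        hF.comp ((measurable_fst.comp measurable_fst).prodMk
          (measurable_snd.prodMk (measurable_snd.comp measurable_fst)))
      have h4 := h3.lintegral_prod_right' (ν := (volume : Measure ℂ))
      exact h4.aemeasurable
    rw [e2]
    refine lintegral_congr fun w => ?_
    apply lintegral_lintegral_swap
    have : Measurable (fun x : (Fin n → ℂ) × ℂ => F x.1 x.2 w) :=
      hF.comp (measurable_fst.prodMk (measurable_snd.prodMk measurable_const))
    exact this.aemeasurable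
  -- bound of the inner integrals
  have h3 : ∀ w, ∫⁻ ζ, ∫⁻ z, F z ζ w ≤
      ENNReal.ofReal (16 ^ n) * V2 * ENNReal.ofReal (2 * ρ * L) * g w := by
    intro w
    let Gw : Set ℂ := {ζ | ζ ∈ ball (0 : ℂ) ρ ∧ ∃ z ∈ S, ‖w - Φ z ζ‖ < σ}
    have hGw : IsOpen Gw := by
      have hO : IsOpen ((fun x : (Fin n → ℂ) × ℂ => (x.1, x.2, w)) ⁻¹' E) :=
        hE.preimage (continuous_fst.prodMk (continuous_snd.prodMk continuous_const))
      have := isOpenMap_snd _ hO
      convert this using 1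
      ext ζ
      constructor
      · rintro ⟨h1, z, hz, h2⟩
        exact ⟨(z, ζ), ⟨hz, h1, h2⟩, rfl⟩
      · rintro ⟨⟨z, ζ'⟩, ⟨hz, h1, h2⟩, rfl⟩
        exact ⟨h1, z, hz, h2⟩
    have hvol : volume Gw ≤ ENNReal.ofReal (2 * ρ * L) := by
      refine hArea Gw e ρ L hGw hρ hL he (fun ζ hζ => hζ.1) ?_
      rintro ζ ⟨h1, z, hz, h2⟩ ζ' ⟨h1', z', hz', h2'⟩ s hs
      refine hstrip z hz z' hz' ζ ζ' (by simpa using h1) (by simpa using h1') s hs ?_
      calc ‖Φ z ζ - Φ z' ζ'‖ = ‖(w - Φ z' ζ') - (w - Φ z ζ)‖ := by congr 1; abel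
        _ ≤ ‖w - Φ z' ζ'‖ + ‖w - Φ z ζ‖ := norm_sub_le _ _
        _ < 2 * σ := by linarith
    have hb : ∀ ζ, ∫⁻ z, F z ζ w ≤
        Gw.indicator (fun _ => ENNReal.ofReal (16 ^ n) * V2 * g w) ζ := by
      intro ζ
      let A : Set (Fin n → ℂ) := {z | (z, ζ, w) ∈ E}
      have hA : MeasurableSet A :=
        (hE.preimage (continuous_id.prodMk continuous_const)).measurableSet
      have hFA : ∀ z, F z ζ w = A.indicator (fun _ => g w) z := by
        intro z
        by_cases hz : z ∈ A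
        · rw [indicator_of_mem hz]
          have hz' : (z, ζ, w) ∈ E := hz
          simp only [F]
          rw [indicator_of_mem hz']
        · rw [indicator_of_notMem hz]
          have hz' : (z, ζ, w) ∉ E := hz
          simp only [F]
          rw [indicator_of_notMem hz']
      simp_rw [hFA]
      rw [lintegral_indicator_const hA]
      rcases A.eq_empty_or_nonempty with h | ⟨z0, hz0⟩
      · rw [h]; simp
      · have hζ : ζ ∈ Gw := ⟨hz0.2.1, z0, hz0.1, hz0.2.2⟩
        rw [indicator_of_mem hζ]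
        have hsub : A ⊆ ball z0 (4 * σ) := by
          intro z hz
          have hzζ : ‖ζ‖ < ρ := by simpa using hz.2.1
          have h4 := hinj z hz.1 z0 hz0.1 ζ hzζ
          have h5 : ‖Φ z ζ - Φ z0 ζ‖ < 2 * σ := by
            calc ‖Φ z ζ - Φ z0 ζ‖ = ‖(w - Φ z0 ζ) - (w - Φ z ζ)‖ := by congr 1; abel
              _ ≤ ‖w - Φ z0 ζ‖ + ‖w - Φ z ζ‖ := norm_sub_le _ _
              _ < 2 * σ := by have := hz.2.2; have := hz0.2.2; simp only at *; linarith
          rw [mem_ball, dist_eq_norm]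
          linarith
        have h6 := (measure_mono hsub).trans (vol_four z0 σ hσ).le
        calc g w * volume A ≤ g w * (ENNReal.ofReal (16 ^ n) * V2) := by gcongr
          _ = ENNReal.ofReal (16 ^ n) * V2 * g w := by ring
    calc ∫⁻ ζ, ∫⁻ z, F z ζ w ≤
        ∫⁻ ζ, Gw.indicator (fun _ => ENNReal.ofReal (16 ^ n) * V2 * g w) ζ := lintegral_mono hb
      _ = ENNReal.ofReal (16 ^ n) * V2 * g w * volume Gw := by
          rw [lintegral_indicator_const hGw.measurableSet]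
      _ ≤ ENNReal.ofReal (16 ^ n) * V2 * g w * ENNReal.ofReal (2 * ρ * L) := by gcongr
      _ = _ := by ring
  have h4 : (∫⁻ z in S, ‖f z‖ₑ ^ 2) * (V1 * V2) ≤
      ENNReal.ofReal (16 ^ n) * V2 * ENNReal.ofReal (2 * ρ * L) * ∫⁻ w in T, ‖f w‖ₑ ^ 2 := by
    calc _ ≤ _ := h1
      _ = _ := h2
      _ ≤ ∫⁻ w, ENNReal.ofReal (16 ^ n) * V2 * ENNReal.ofReal (2 * ρ * L) * g w :=
          lintegral_mono h3
      _ = _ := by
          rw [lintegral_const_mul _ hg, ← lintegral_indicator hT.measurableSet]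
  have hV : V1 = ENNReal.ofReal (Real.pi * ρ ^ 2) := by
    rw [hV1, Complex.volume_ball, mul_comm, ENNReal.ofReal_mul Real.pi_pos.le,
      ENNReal.ofReal_pow hρ.le]
    congr 1
    rw [ENNReal.ofReal]
    congr 1
    ext; simp [Real.pi_pos.le]
  have h5 : ENNReal.ofReal (16 ^ n) * V2 * ENNReal.ofReal (2 * ρ * L) =
      ENNReal.ofReal (16 ^ n * (2 * L / (Real.pi * ρ))) * (V1 * V2) := by
    rw [hV, ← mul_assoc, ← ENNReal.ofReal_mul (by positivity), mul_right_comm,
      ← ENNReal.ofReal_mul (by positivity)]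
    congr 2
    have := Real.pi_pos
    field_simp
  rw [h5] at h4
  have h6 : (∫⁻ z in S, ‖f z‖ₑ ^ 2) * (V1 * V2) ≤
      (ENNReal.ofReal (16 ^ n * (2 * L / (Real.pi * ρ))) * ∫⁻ w in T, ‖f w‖ₑ ^ 2) * (V1 * V2) :=
    h4.trans (le_of_eq (by ring))
  exact (ENNReal.mul_le_mul_iff_left (mul_ne_zero hV1'' hV2'')
    (ENNReal.mul_ne_top hV1' hV2')).1 h6

end Pool.Agent.H68R3.BB
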