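import Mathlib
import Pool.Agent.H68R3.BB.Stmts

/-! Task Sum of the project H68-BB: summation over dyadic shells. -/

set_option autoImplicit false

open MeasureTheory Topology Filter Set Metric
open scoped ENNReal NNReal ContDiff

namespace Pool.Agent.H68R3.BB

namespace Sum632

lemma count (C y : ℝ) (m c : ℕ) (hc : C ≤ 2 ^ c) (k k' : ℤ)
    (h1 : (2 : ℝ) ^ k' / 2 < y) (h2 : y < C * 4 ^ m * 2 ^ k) : k' ≤ k + (c + 2 * m : ℕ) := by
  by_contra hcon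
  push Not at hcon
  have h3 : (2 : ℝ) ^ (k + (c + 2 * m : ℕ) + 1) ≤ 2 ^ k' := zpow_le_zpow_right₀ (by norm_num) hcon
  have h4 : (2 : ℝ) ^ (k + (c + 2 * m : ℕ) + 1) = 2 ^ c * 4 ^ m * 2 ^ k * 2 := by
    rw [zpow_add₀ (by norm_num), zpow_add₀ (by norm_num), zpow_natCast, zpow_one, pow_add,
      pow_mul]
    norm_num
    ring
  have h5 : C * 4 ^ m * (2 : ℝ) ^ k ≤ 2 ^ c * 4 ^ m * 2 ^ k := by gcongr
  rw [h4] at h3
  linarith

end Sum632

open Sum632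

theorem taskSum : TaskSum := by
  intro α _ μ A B D g C m hC hD hB hg hA' hB' h
  set Ak : ℤ → Set α := fun k => A ∩ {x | (2 : ℝ) ^ k < D x ∧ D x < 4 * (2 : ℝ) ^ k} with hAk
  set Bk : ℤ → Set α := fun k => B ∩ {x | (2 : ℝ) ^ k / 2 < D x ∧ D x < C * 4 ^ m * (2 : ℝ) ^ k}
    with hBk
  have hcov : A ⊆ ⋃ k, Ak k := by
    intro x hx
    obtain ⟨k, hk1, hk2⟩ := exists_mem_Ioc_zpow (hD x hx) (one_lt_two : (1 : ℝ) < 2)
    rw [mem_iUnion]
    refine ⟨k, hx, hk1, lt_of_le_of_lt hk2 ?_⟩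
    rw [zpow_add_one₀ (by norm_num)]
    have : (0 : ℝ) < 2 ^ k := by positivity
    linarith
  have hmeas : ∀ k, MeasurableSet (Bk k) := fun k => hB' _ _ (by positivity)
  have h1 : ∫⁻ x in A, g x ∂μ ≤ ∑' k, ∫⁻ x in Ak k, g x ∂μ :=
    (lintegral_mono_set hcov).trans (lintegral_iUnion_le _ _)
  have h2 : ∑' k, ∫⁻ x in Ak k, g x ∂μ ≤
      ∑' k, ENNReal.ofReal (C / 2 ^ m) * ∫⁻ x in Bk k, g x ∂μ :=
    ENNReal.tsum_le_tsum (fun k => h ((2 : ℝ) ^ k) (by positivity))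
  have h3 : ∀ k, ∫⁻ x in Bk k, g x ∂μ = ∫⁻ x in B, (Bk k).indicator g x ∂μ := by
    intro k
    rw [lintegral_indicator (hmeas k), Measure.restrict_restrict (hmeas k),
      inter_eq_left.mpr inter_subset_left]
  have h4 : ∑' k, ∫⁻ x in B, (Bk k).indicator g x ∂μ =
      ∫⁻ x in B, ∑' k, (Bk k).indicator g x ∂μ :=
    (lintegral_tsum (fun k => hg.indicator (hmeas k))).symm
  set c : ℕ := ⌈C⌉₊ with hc
  have hCc : C ≤ 2 ^ c := by
    have e1 : C ≤ (c : ℝ) := Nat.le_ceil C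
    have e2 : (c : ℝ) ≤ 2 ^ c := by exact_mod_cast (Nat.lt_two_pow_self).le
    linarith
  set N : ℕ := 2 * (c + 2 * m) + 1 with hN
  have h5 : ∀ x, ∑' k, (Bk k).indicator g x ≤ (N : ℝ≥0∞) * g x := by
    intro x
    by_cases hx : ∃ k, x ∈ Bk k
    · obtain ⟨k, hk⟩ := hx
      have hsupp : ∀ k' ∉ Finset.Icc (k - (c + 2 * m : ℕ)) (k + (c + 2 * m : ℕ)),
          (Bk k').indicator g x = 0 := by
        intro k' hk'
        refine indicator_of_notMem (fun hx' => hk' ?_) g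
        rw [Finset.mem_Icc]
        have e1 := count C (D x) m c hCc k k' hx'.2.1 hk.2.2
        have e2 := count C (D x) m c hCc k' k hk.2.1 hx'.2.2
        exact ⟨by linarith, e1⟩
      rw [tsum_eq_sum hsupp]
      refine le_trans (Finset.sum_le_card_nsmul _ _ (g x)
        (fun k' _ => indicator_le_self' (fun _ _ => zero_le) x)) ?_
      rw [nsmul_eq_mul, Int.card_Icc]
      gcongr
      have : (k + ((c + 2 * m : ℕ) : ℤ) + 1 - (k - ((c + 2 * m : ℕ) : ℤ))).toNat = N := by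
        rw [hN]; omega
      rw [this]
    · have : ∀ k, (Bk k).indicator g x = 0 :=
        fun k => indicator_of_notMem (fun hk => hx ⟨k, hk⟩) g
      simp [this]
  have h6 : ∫⁻ x in B, ∑' k, (Bk k).indicator g x ∂μ ≤ (N : ℝ≥0∞) * ∫⁻ x in B, g x ∂μ := by
    rw [← lintegral_const_mul' _ _ (ENNReal.natCast_ne_top N)]
    exact lintegral_mono (fun x => h5 x)
  have h7 : ENNReal.ofReal (C / 2 ^ m) * (N : ℝ≥0∞) ≤
      ENNReal.ofReal (20 * C ^ 2 * (m + 1) / 2 ^ m) := by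
    have e1 : (N : ℝ≥0∞) = ENNReal.ofReal (N : ℝ) := (ENNReal.ofReal_natCast N).symm
    rw [e1, ← ENNReal.ofReal_mul (by positivity)]
    apply ENNReal.ofReal_le_ofReal
    rw [div_mul_eq_mul_div]
    apply div_le_div_of_nonneg_right _ (by positivity)
    have e2 : (c : ℝ) < C + 1 := Nat.ceil_lt_add_one (by linarith)
    have e3 : (N : ℝ) = 2 * (c + 2 * m) + 1 := by rw [hN]; push_cast; ring
    have hm : (0 : ℝ) ≤ m := Nat.cast_nonneg m
    have e4 : (N : ℝ) ≤ 20 * C * (m + 1) := by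
      rw [e3]
      nlinarith [mul_nonneg (sub_nonneg.mpr hC) hm]
    calc C * (N : ℝ) ≤ C * (20 * C * (m + 1)) := mul_le_mul_of_nonneg_left e4 (by linarith)
      _ = 20 * C ^ 2 * (m + 1) := by ring
  calc ∫⁻ x in A, g x ∂μ ≤ ∑' k, ENNReal.ofReal (C / 2 ^ m) * ∫⁻ x in Bk k, g x ∂μ := h1.trans h2
    _ = ENNReal.ofReal (C / 2 ^ m) * ∫⁻ x in B, ∑' k, (Bk k).indicator g x ∂μ := by
        rw [ENNReal.tsum_mul_left, ← h4]
        simp only [h3]
    _ ≤ ENNReal.ofReal (C / 2 ^ m) * ((N : ℝ≥0∞) * ∫⁻ x in B, g x ∂μ) := by gcongr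
    _ = ENNReal.ofReal (C / 2 ^ m) * (N : ℝ≥0∞) * ∫⁻ x in B, g x ∂μ := by rw [mul_assoc]
    _ ≤ ENNReal.ofReal (20 * C ^ 2 * (m + 1) / 2 ^ m) * ∫⁻ x in B, g x ∂μ := by gcongr

end Pool.Agent.H68R3.BB
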