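import Pool.Agent.H68R3.BB.Stmts

set_option autoImplicit false

open MeasureTheory Topology Filter Set Metric
open scoped ENNReal NNReal ContDiff

namespace Pool.Agent.H68R3.BB

namespace WidthH62

theorem hess_expand {n : ℕ} (r : (Fin n → ℂ) → ℝ) (p w y : Fin n → ℂ) (s : ℝ) :
    hess r p (s • w + y) (s • w + y) =
      s ^ 2 * hess r p w w + s * hess r p w y + s * hess r p y w + hess r p y y := by
  unfold hess
  simp only [map_add, map_smul, add_apply, smul_apply,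
    smul_eq_mul]
  ring

theorem mid_norm (u v : ℂ) : ‖(1 / 2 : ℝ) • (u + v)‖ ^ 2 =
    (‖u‖ ^ 2 + ‖v‖ ^ 2) / 2 - ‖u - v‖ ^ 2 / 4 := by
  rw [Complex.sq_norm, Complex.sq_norm, Complex.sq_norm, Complex.sq_norm, Complex.normSq_apply,
    Complex.normSq_apply, Complex.normSq_apply, Complex.normSq_apply]
  simp only [Complex.real_smul, Complex.re_ofReal_mul, Complex.im_ofReal_mul, Complex.add_re,
    Complex.add_im, Complex.sub_re, Complex.sub_im]
  ring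

theorem sup_le {n : ℕ} (x : Fin n → ℂ) : ‖x‖ ^ 2 ≤ ∑ i, ‖x i‖ ^ 2 := by
  have h0 : 0 ≤ ∑ i, ‖x i‖ ^ 2 := Finset.sum_nonneg fun i _ => sq_nonneg _
  have h1 : ‖x‖ ≤ Real.sqrt (∑ i, ‖x i‖ ^ 2) := by
    rw [pi_norm_le_iff_of_nonneg (Real.sqrt_nonneg _)]
    intro i
    apply Real.le_sqrt_of_sq_le
    exact Finset.single_le_sum (f := fun i => ‖x i‖ ^ 2) (fun i _ => sq_nonneg _)
      (Finset.mem_univ i)
  calc ‖x‖ ^ 2 ≤ (Real.sqrt (∑ i, ‖x i‖ ^ 2)) ^ 2 := by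
        apply pow_le_pow_left₀ (norm_nonneg _) h1
    _ = _ := Real.sq_sqrt h0

theorem mid_ball {n : ℕ} (z z' a : Fin n → ℂ) (R : ℝ) (hz : z ∈ eball a R) (hz' : z' ∈ eball a R) :
    ‖z - z'‖ ^ 2 / 4 ≤ R ^ 2 - ∑ i, ‖((1 / 2 : ℝ) • (z + z')) i - a i‖ ^ 2 := by
  have h1 : ∀ i, ‖((1 / 2 : ℝ) • (z + z')) i - a i‖ ^ 2 =
      (‖z i - a i‖ ^ 2 + ‖z' i - a i‖ ^ 2) / 2 - ‖(z - z') i‖ ^ 2 / 4 := by
    intro i
    have h2 : ((1 / 2 : ℝ) • (z + z')) i - a i = (1 / 2 : ℝ) • ((z i - a i) + (z' i - a i)) := by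
      simp only [Pi.smul_apply, Pi.add_apply, Complex.real_smul]
      push_cast
      ring
    have h3 : (z - z') i = (z i - a i) - (z' i - a i) := by
      simp
    rw [h2, h3, mid_norm]
  have h4 := sup_le (z - z')
  have h5 : ∑ i, ‖((1 / 2 : ℝ) • (z + z')) i - a i‖ ^ 2 =
      (∑ i, ‖z i - a i‖ ^ 2 + ∑ i, ‖z' i - a i‖ ^ 2) / 2 - (∑ i, ‖(z - z') i‖ ^ 2) / 4 := by
    rw [Finset.sum_congr rfl fun i _ => h1 i, Finset.sum_sub_distrib, ← Finset.sum_div,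
      Finset.sum_add_distrib, ← Finset.sum_div]
  have h6 : ∑ i, ‖z i - a i‖ ^ 2 < R ^ 2 := hz
  have h7 : ∑ i, ‖z' i - a i‖ ^ 2 < R ^ 2 := hz'
  rw [h5]
  linarith

/-- the final contradiction -/
theorem fin_ineq (c K η κ L D d S Y Z : ℝ) (hc : 0 < c) (hK : 1 ≤ K) (hη : 0 < η)
    (hη2 : η ≤ 1 / 2) (hKη : K * η ≤ c / 48) (hκ : 8 * κ ≤ η * L) (hL1 : 1 ≤ L)
    (hL : 257 ≤ c * L) (hD : 0 < D) (hD1 : D ≤ 1) (hd : d = D ^ 2) (hS : L * D < S)
    (hY0 : 0 ≤ Y) (hY : Y ≤ 4 * (κ * d) + η / 2 * S) (hZ : S ≤ Z + Y)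
    (hm : c * Z ^ 2 / 4 ≤ 8 * d + K * (2 * S * Y + Y ^ 2) / 4) : False := by
  have hS0 : 0 < S := lt_trans (by positivity) hS
  have h1 : Y ≤ η * S := by
    have h2 : 4 * (κ * d) ≤ η / 2 * (L * D) := by
      have h3 : 4 * (κ * d) ≤ η * L / 2 * d := by
        have : 0 < d := by rw [hd]; positivity
        nlinarith
      have h4 : d ≤ D := by rw [hd]; nlinarith
      have h5 : η * L / 2 * d ≤ η * L / 2 * D := by
        apply mul_le_mul_of_nonneg_left h4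
        positivity
      linarith
    have h6 : η / 2 * (L * D) ≤ η / 2 * S := mul_le_mul_of_nonneg_left hS.le (by positivity)
    linarith
  have h2 : Y ≤ S / 2 := by nlinarith
  have h3 : S / 2 ≤ Z := by linarith
  have h4 : S ^ 2 / 4 ≤ Z ^ 2 := by nlinarith
  have h5 : 257 * d ≤ c * S ^ 2 := by
    have h6 : L ^ 2 * D ^ 2 ≤ S ^ 2 := by
      have : (L * D) ^ 2 ≤ S ^ 2 := pow_le_pow_left₀ (by positivity) hS.le 2
      nlinarith
    have h7 : L * D ^ 2 ≤ L ^ 2 * D ^ 2 := by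
      have : L ≤ L ^ 2 := by nlinarith
      exact mul_le_mul_of_nonneg_right this (by positivity)
    have h8 : 257 * D ^ 2 ≤ c * L * D ^ 2 := mul_le_mul_of_nonneg_right hL (by positivity)
    have h9 : c * (L * D ^ 2) ≤ c * S ^ 2 := mul_le_mul_of_nonneg_left (h7.trans h6) hc.le
    rw [hd]; linarith
  have h6 : K * (2 * S * Y + Y ^ 2) ≤ (5 / 2) * (c / 48) * S ^ 2 := by
    have h7 : 2 * S * Y + Y ^ 2 ≤ (5 / 2) * η * S ^ 2 := by
      have a1 : S * Y ≤ S * (η * S) := mul_le_mul_of_nonneg_left h1 hS0.le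
      have a2 : Y ^ 2 ≤ (S / 2) * (η * S) := by
        rw [pow_two]
        exact mul_le_mul h2 h1 hY0 (by positivity)
      nlinarith
    have h8 : K * (2 * S * Y + Y ^ 2) ≤ K * ((5 / 2) * η * S ^ 2) :=
      mul_le_mul_of_nonneg_left h7 (by linarith)
    have h9 : (K * η) * ((5 / 2) * S ^ 2) ≤ (c / 48) * ((5 / 2) * S ^ 2) :=
      mul_le_mul_of_nonneg_right hKη (by positivity)
    linarith
  have h7 : c * (S ^ 2 / 4) ≤ c * Z ^ 2 := mul_le_mul_of_nonneg_left h4 hc.le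
  have h8 : 0 < c * S ^ 2 := by positivity
  nlinarith

/-- the bound for `y` -/
theorem y_bound (K η κ M D d δ' S Y Z X W : ℝ) (hη : 0 < η) (hη2 : η ≤ 1 / 2)
    (h1 : K ^ 2 * M * D ≤ η / 16) (h2 : K ^ 2 * δ' ≤ η / 16) (hS : 0 ≤ S) (hY : 0 ≤ Y)
    (hZ : Z ≤ S + Y) (hK : 1 ≤ K) (hMD : 0 ≤ M * D)
    (hX : X ≤ K * Z * (M * D) + K * δ' * S + K * S * (2 * (M * D)))
    (hYb : Y ≤ 2 * (κ * d) + X * W) (hX0 : 0 ≤ X) (hW : W ≤ K) (_hκd : 0 ≤ κ * d) :
    Y ≤ 4 * (κ * d) + η / 2 * S := by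
  have h3 : X * W ≤ X * K := mul_le_mul_of_nonneg_left hW hX0
  have h4 : X * K ≤ (K * Z * (M * D) + K * δ' * S + K * S * (2 * (M * D))) * K :=
    mul_le_mul_of_nonneg_right hX (by linarith)
  have h5 : (K * Z * (M * D) + K * δ' * S + K * S * (2 * (M * D))) * K =
      (K ^ 2 * M * D) * Z + (K ^ 2 * δ') * S + 2 * (K ^ 2 * M * D) * S := by ring
  have h6 : (K ^ 2 * M * D) * Z ≤ (K ^ 2 * M * D) * (S + Y) := by
    apply mul_le_mul_of_nonneg_left hZ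
    have : 0 ≤ K ^ 2 * (M * D) := by positivity
    linarith
  have h7 : (K ^ 2 * M * D) * (S + Y) ≤ (η / 16) * (S + Y) :=
    mul_le_mul_of_nonneg_right h1 (by linarith)
  have h8 : (K ^ 2 * δ') * S ≤ (η / 16) * S := mul_le_mul_of_nonneg_right h2 hS
  have h9 : (K ^ 2 * M * D) * S ≤ (η / 16) * S := mul_le_mul_of_nonneg_right h1 hS
  have h10 : η * Y ≤ Y / 2 := by nlinarith
  nlinarith

end WidthH62

open WidthH62 in
theorem taskWidth : TaskWidth := by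
  intro n r p t N a q e τ R K c δ κ hK hc hδ hδ1 hκ hR ht he hN hq hτp hτ hh hmid hin hneg
  have hK0 : 0 < K := by linarith
  obtain ⟨η, hη, hη2, hKη⟩ : ∃ η : ℝ, 0 < η ∧ η ≤ 1 / 2 ∧ K * η ≤ c / 48 := by
    refine ⟨min (1 / 2) (c / (48 * K)), lt_min (by norm_num) (by positivity), min_le_left _ _, ?_⟩
    calc K * min (1 / 2) (c / (48 * K)) ≤ K * (c / (48 * K)) :=
          mul_le_mul_of_nonneg_left (min_le_right _ _) hK0.le
      _ = c / 48 := by field_simp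
  obtain ⟨L, hL1, hLκ, hLc⟩ : ∃ L : ℝ, 1 ≤ L ∧ 8 * κ ≤ η * L ∧ 257 ≤ c * L := by
    refine ⟨1 + 8 * κ / η + 257 / c, ?_, ?_, ?_⟩
    · have h1 : 0 ≤ 8 * κ / η := by positivity
      have h2 : 0 ≤ 257 / c := by positivity
      linarith
    · have h1 : η * (8 * κ / η) = 8 * κ := by field_simp
      have h2 : 0 ≤ η * (257 / c) := by positivity
      have h3 : η * (1 + 8 * κ / η + 257 / c) = η + η * (8 * κ / η) + η * (257 / c) := by ring
      rw [h3, h1]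
      linarith
    · have h1 : c * (257 / c) = 257 := by field_simp
      have h2 : 0 ≤ c * (8 * κ / η) := by positivity
      have h3 : c * (1 + 8 * κ / η + 257 / c) = c + c * (8 * κ / η) + c * (257 / c) := by ring
      rw [h3, h1]
      linarith
  refine ⟨L, by linarith, ?_⟩
  intro M hM
  have hM0 : 0 < M := by linarith
  set b : ℝ := η / (16 * K ^ 2 * M) with hb
  have hb0 : 0 < b := by positivity
  have hKMb : K ^ 2 * M * b = η / 16 := by rw [hb]; field_simp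
  have hKb : K ^ 2 * b ≤ η / 16 := by
    rw [← hKMb]
    have : K ^ 2 * b * 1 ≤ K ^ 2 * b * M := mul_le_mul_of_nonneg_left hM (by positivity)
    linarith
  obtain ⟨δ', hδ'0, hδ'δ, hδ'b, hδ'c⟩ : ∃ δ' : ℝ, 0 < δ' ∧ δ' ≤ δ ∧ δ' ≤ b ^ 2 ∧
      2 * K * δ' ≤ c / 4 := by
    refine ⟨min δ (min (b ^ 2) (c / (8 * K))), ?_, min_le_left _ _, ?_, ?_⟩
    · exact lt_min hδ (lt_min (by positivity) (by positivity))
    · exact (min_le_right _ _).trans (min_le_left _ _)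
    · have h1 : min δ (min (b ^ 2) (c / (8 * K))) ≤ c / (8 * K) :=
        (min_le_right _ _).trans (min_le_right _ _)
      calc 2 * K * min δ (min (b ^ 2) (c / (8 * K))) ≤ 2 * K * (c / (8 * K)) :=
            mul_le_mul_of_nonneg_left h1 (by positivity)
        _ = c / 4 := by field_simp; ring
  refine ⟨δ', hδ'0, hδ'δ, ?_⟩
  intro d hd0 hdδ z hz z' hz' hrz hrz' ζ ζ' hζ hζ' s hs hφ
  by_contra hcon
  push Not at hcon
  set D : ℝ := Real.sqrt d with hD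
  have hD0 : 0 < D := Real.sqrt_pos.2 hd0
  have hDd : d = D ^ 2 := (Real.sq_sqrt hd0.le).symm
  have hDb : D ≤ b := by
    rw [hD]
    apply Real.sqrt_le_iff.2
    exact ⟨hb0.le, hdδ.trans hδ'b⟩
  have hδ'1 : δ' ≤ 1 := hδ'δ.trans hδ1
  have hD1 : D ≤ 1 := by
    rw [hD]
    apply Real.sqrt_le_iff.2
    exact ⟨by norm_num, by linarith⟩
  have hδ'b1 : δ' ≤ b := by
    have h1 : Real.sqrt δ' ≤ b := Real.sqrt_le_iff.2 ⟨hb0.le, hδ'b⟩
    have h2 : δ' ≤ Real.sqrt δ' := by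
      apply Real.le_sqrt_of_sq_le
      nlinarith
    linarith
  have h1 : K ^ 2 * M * D ≤ η / 16 := by
    rw [← hKMb]
    exact mul_le_mul_of_nonneg_left hDb (by positivity)
  have h2 : K ^ 2 * δ' ≤ η / 16 :=
    (mul_le_mul_of_nonneg_left hδ'b1 (by positivity)).trans hKb
  -- the points
  have hzp : ‖z - p‖ < δ' := by simpa [dist_eq_norm] using hz.2
  have hzp' : ‖z' - p‖ < δ' := by simpa [dist_eq_norm] using hz'.2
  have hzδ : z ∈ ball p δ := ball_subset_ball hδ'δ hz.2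
  have hzδ' : z' ∈ ball p δ := ball_subset_ball hδ'δ hz'.2
  have hpδ : p ∈ ball p δ := mem_ball_self hδ
  set w : Fin n → ℂ := e • t with hw
  have hwn : ‖w‖ = 1 := by rw [hw, norm_smul, he, ht, mul_one]
  set y : Fin n → ℂ := z - z' - s • w with hy
  have hzz : z - z' = s • w + y := by rw [hy]; abel
  have hsw : ‖s • w‖ = |s| := by rw [norm_smul, hwn, mul_one, Real.norm_eq_abs]
  have hZ1 : ‖z - z'‖ ≤ |s| + ‖y‖ := by
    rw [hzz, ← hsw]; exact norm_add_le _ _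
  have hZ2 : |s| ≤ ‖z - z'‖ + ‖y‖ := by
    have h3 : s • w = (z - z') - y := by rw [hzz]; abel
    rw [← hsw, h3]; exact norm_sub_le _ _
  -- the bound for y
  set X : ℂ := τ z * ζ + q * ζ ^ 2 - (τ z' * ζ' + q * ζ' ^ 2) with hX
  have hφe : phi t N q τ z ζ - phi t N q τ z' ζ' = y + X • N := by
    have h3 : s • w = (ζ' - ζ) • t := by
      rw [hs, hw, mul_smul]
      ext i
      simp
    rw [hy, h3, hX]
    unfold phi
    simp only [sub_smul]
    abel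
  have hyb : ‖y‖ ≤ 2 * (κ * d) + ‖X‖ * ‖N‖ := by
    have h3 : y = (phi t N q τ z ζ - phi t N q τ z' ζ') - X • N := by rw [hφe]; abel
    calc ‖y‖ = ‖(phi t N q τ z ζ - phi t N q τ z' ζ') - X • N‖ := by rw [← h3]
      _ ≤ ‖phi t N q τ z ζ - phi t N q τ z' ζ'‖ + ‖X • N‖ := norm_sub_le _ _
      _ ≤ 2 * (κ * d) + ‖X‖ * ‖N‖ := by rw [norm_smul]; linarith
  have hseq : ‖ζ - ζ'‖ = |s| := by
    rw [norm_sub_rev, hs, norm_mul, he, mul_one, Complex.norm_real, Real.norm_eq_abs]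
  have hXb : ‖X‖ ≤ K * ‖z - z'‖ * (M * D) + K * δ' * |s| + K * |s| * (2 * (M * D)) := by
    have h3 : X = (τ z - τ z') * ζ + τ z' * (ζ - ζ') + q * ((ζ - ζ') * (ζ + ζ')) := by
      rw [hX]; ring
    have h4 : ‖(τ z - τ z') * ζ‖ ≤ K * ‖z - z'‖ * (M * D) := by
      rw [norm_mul]
      exact mul_le_mul (hτ z hzδ z' hzδ') hζ.le (norm_nonneg _) (by positivity)
    have h5 : ‖τ z' * (ζ - ζ')‖ ≤ K * δ' * |s| := by
      rw [norm_mul, hseq]
      apply mul_le_mul_of_nonneg_right _ (abs_nonneg _)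
      have h6 := hτ z' hzδ' p hpδ
      rw [hτp, sub_zero] at h6
      exact h6.trans (mul_le_mul_of_nonneg_left hzp'.le hK0.le)
    have h6 : ‖q * ((ζ - ζ') * (ζ + ζ'))‖ ≤ K * |s| * (2 * (M * D)) := by
      rw [norm_mul, norm_mul, hseq, mul_assoc]
      apply mul_le_mul hq _ (by positivity) hK0.le
      apply mul_le_mul_of_nonneg_left _ (abs_nonneg _)
      have := norm_add_le ζ ζ'
      linarith
    rw [h3]
    calc _ ≤ ‖(τ z - τ z') * ζ + τ z' * (ζ - ζ')‖ + ‖q * ((ζ - ζ') * (ζ + ζ'))‖ :=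
          norm_add_le _ _
      _ ≤ ‖(τ z - τ z') * ζ‖ + ‖τ z' * (ζ - ζ')‖ + ‖q * ((ζ - ζ') * (ζ + ζ'))‖ := by
          have := norm_add_le ((τ z - τ z') * ζ) (τ z' * (ζ - ζ'))
          linarith
      _ ≤ _ := by linarith
  have hκd : 0 ≤ κ * d := by positivity
  have hyfin : ‖y‖ ≤ 4 * (κ * d) + η / 2 * |s| :=
    y_bound K η κ M D d δ' |s| ‖y‖ ‖z - z'‖ ‖X‖ ‖N‖ hη hη2 h1 h2 (abs_nonneg _) (norm_nonneg _)
      hZ1 hK (by positivity) hXb hyb (norm_nonneg _) hN hκd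
  -- the midpoint
  set m : Fin n → ℂ := (1 / 2 : ℝ) • (z + z') with hm
  have hmball := mid_ball z z' a R hz.1 hz'.1
  rw [← hm] at hmball
  have hm1 : m ∈ eball a R := by
    show ∑ i, ‖m i - a i‖ ^ 2 < R ^ 2
    by_cases h0 : z = z'
    · have h3 : m = z := by
        rw [hm, ← h0, ← two_smul ℝ z, smul_smul]; norm_num
      rw [h3]; exact hz.1
    · have h3 : 0 < ‖z - z'‖ := norm_pos_iff.2 (sub_ne_zero.2 h0)
      have h4 : 0 < ‖z - z'‖ ^ 2 / 4 := by positivity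
      linarith
  have hm2 : m ∈ ball p δ := by
    have h3 : m = z + (1 / 2 : ℝ) • (z' - z) := by
      rw [hm]
      ext i
      simp only [Pi.smul_apply, Pi.add_apply, Pi.sub_apply, Complex.real_smul]
      push_cast
      ring
    have := (convex_ball p δ).add_smul_sub_mem hzδ hzδ' (t := 1 / 2) ⟨by norm_num, by norm_num⟩
    rw [h3]; exact this
  have hin' := hin m ⟨hm1, hm2⟩
  have hmid' := (abs_le.1 (hmid z hzδ z' hzδ')).2
  rw [← hm] at hmid'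
  have hH : hess r p (z - z') (z - z') ≤ K * (2 * |s| * ‖y‖ + ‖y‖ ^ 2) := by
    rw [hzz, hess_expand]
    have a1 : s ^ 2 * hess r p w w ≤ 0 :=
      mul_nonpos_of_nonneg_of_nonpos (sq_nonneg _) hneg
    have a2 : s * hess r p w y ≤ |s| * (K * ‖w‖ * ‖y‖) := by
      calc s * hess r p w y ≤ |s * hess r p w y| := le_abs_self _
        _ = |s| * |hess r p w y| := abs_mul _ _
        _ ≤ _ := mul_le_mul_of_nonneg_left (hh w y) (abs_nonneg _)
    have a3 : s * hess r p y w ≤ |s| * (K * ‖y‖ * ‖w‖) := by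
      calc s * hess r p y w ≤ |s * hess r p y w| := le_abs_self _
        _ = |s| * |hess r p y w| := abs_mul _ _
        _ ≤ _ := mul_le_mul_of_nonneg_left (hh y w) (abs_nonneg _)
    have a4 : hess r p y y ≤ K * ‖y‖ * ‖y‖ := (le_abs_self _).trans (hh y y)
    rw [hwn] at a2 a3
    linarith
  have hB : K * (‖z - p‖ + ‖z' - p‖) * ‖z - z'‖ ^ 2 ≤ c / 4 * ‖z - z'‖ ^ 2 := by
    apply mul_le_mul_of_nonneg_right _ (sq_nonneg _)
    have : K * (‖z - p‖ + ‖z' - p‖) ≤ K * (2 * δ') :=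
      mul_le_mul_of_nonneg_left (by linarith) hK0.le
    linarith
  have hin2 : c * (‖z - z'‖ ^ 2 / 4) ≤ - r m :=
    (mul_le_mul_of_nonneg_left hmball hc.le).trans hin'
  have hfin : c * ‖z - z'‖ ^ 2 / 4 ≤ 8 * d + K * (2 * |s| * ‖y‖ + ‖y‖ ^ 2) / 4 := by
    linarith
  exact fin_ineq c K η κ L D d |s| ‖y‖ ‖z - z'‖ hc hK hη hη2 hKη hLκ hL1 hLc hD0 hD1 hDd hcon
    (norm_nonneg _) hyfin hZ2 hfin

end Pool.Agent.H68R3.BB
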