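import Pool.Agent.H68R3.BB.Stmts

/-!
# H68-BB: `TaskTaylor`

Uniform second order Taylor expansion of a smooth function near a point.
-/

set_option autoImplicit false

open MeasureTheory Topology Filter Set Metric
open scoped ENNReal NNReal ContDiff

namespace Pool.Agent.H68R3.BB

theorem taskTaylor : TaskTaylor := by
  intro n r U p hU hp hr
  have hsm : ∀ z ∈ U, ContDiffAt ℝ ∞ r z := fun z hz => hr.contDiffAt (hU.mem_nhds hz)
  have hg : ∀ z ∈ U, ContDiffAt ℝ 2 (fderiv ℝ r) z := fun z hz =>
    (hsm z hz).fderiv_right (by norm_cast)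
  have hh : ∀ z ∈ U, ContDiffAt ℝ 1 (fderiv ℝ (fderiv ℝ r)) z := fun z hz =>
    (hg z hz).fderiv_right (by norm_num)
  obtain ⟨K1, t1, ht1, hK1⟩ := ((hg p hp).of_le (by norm_num : (1 : WithTop ℕ∞) ≤ 2)).exists_lipschitzOnWith
  obtain ⟨K2, t2, ht2, hK2⟩ := (hh p hp).exists_lipschitzOnWith
  obtain ⟨ε, hε, hball⟩ := Metric.mem_nhds_iff.1
    (Filter.inter_mem (Filter.inter_mem ht1 ht2) (hU.mem_nhds hp))
  have hsymm : ∀ u v, fderiv ℝ (fderiv ℝ r) p u v = fderiv ℝ (fderiv ℝ r) p v u := by
    have h2 : ContDiffAt ℝ 2 r p := (hsm p hp).of_le (by norm_cast)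
    have := h2.isSymmSndFDerivAt (by simp)
    intro u v
    exact this u v
  set g := fderiv ℝ r with hgdef
  set h := fderiv ℝ g with hhdef
  set δ : ℝ := min 1 (ε / 2) with hδdef
  have hδ : 0 < δ := lt_min one_pos (by linarith)
  have hδ1 : δ ≤ 1 := min_le_left _ _
  have hδε : 2 * δ ≤ ε := by
    have := min_le_right 1 (ε / 2)
    linarith
  have hb2 : ball p (2 * δ) ⊆ (t1 ∩ t2) ∩ U := (ball_subset_ball hδε).trans hball
  have hK1' : (0 : ℝ) ≤ K1 := K1.2
  have hK2' : (0 : ℝ) ≤ K2 := K2.2
  set K : ℝ := 1 + ‖h p‖ + ‖g p‖ + K1 + K2 with hKdef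
  have hnh : 0 ≤ ‖h p‖ := by positivity
  have hng : 0 ≤ ‖g p‖ := by positivity
  have hlipg : ∀ z ∈ ball p (2 * δ), ∀ z' ∈ ball p (2 * δ), ‖g z - g z'‖ ≤ K1 * ‖z - z'‖ := by
    intro z hz z' hz'
    have := hK1.dist_le_mul z (hb2 hz).1.1 z' (hb2 hz').1.1
    rwa [dist_eq_norm, dist_eq_norm] at this
  have hliph : ∀ z ∈ ball p (2 * δ), ∀ z' ∈ ball p (2 * δ), ‖h z - h z'‖ ≤ K2 * ‖z - z'‖ := by
    intro z hz z' hz'
    have := hK2.dist_le_mul z (hb2 hz).1.2 z' (hb2 hz').1.2
    rwa [dist_eq_norm, dist_eq_norm] at this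
  have hsub : ball p δ ⊆ ball p (2 * δ) := ball_subset_ball (by linarith)
  have hp2 : p ∈ ball p (2 * δ) := mem_ball_self (by linarith)
  refine ⟨K, δ, by linarith, hδ, hδ1, fun z hz => (hb2 hz).2, ?_, ?_, ?_, ?_⟩
  · intro u v
    have h1 : |h p u v| ≤ ‖h p‖ * ‖u‖ * ‖v‖ := by
      have := (h p).le_opNorm₂ u v
      simpa [Real.norm_eq_abs] using this
    refine h1.trans ?_
    gcongr
    linarith
  · intro z hz
    have h1 := hlipg z (hsub hz) p hp2
    have h2 : ‖z - p‖ ≤ 1 := by
      rw [mem_ball, dist_eq_norm] at hz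
      linarith
    have h3 : ‖g z‖ ≤ ‖g p‖ + ‖g z - g p‖ := by
      have := norm_add_le (g p) (g z - g p)
      simpa using this
    have h4 : (K1 : ℝ) * ‖z - p‖ ≤ K1 * 1 := by gcongr
    linarith
  · intro z hz z' hz'
    refine (hlipg z (hsub hz) z' (hsub hz')).trans ?_
    gcongr
    linarith
  · intro z hz v hv
    rw [mem_ball, dist_eq_norm] at hz
    -- points of the form z + w with ‖w‖ ≤ ‖v‖
    have hmem : ∀ w : Fin n → ℂ, ‖w‖ ≤ ‖v‖ → z + w ∈ ball p (2 * δ) := by
      intro w hw
      rw [mem_ball, dist_eq_norm]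
      have : ‖z + w - p‖ ≤ ‖z - p‖ + ‖w‖ := by
        have := norm_add_le (z - p) w
        have e : z - p + w = z + w - p := by abel
        rwa [e] at this
      linarith
    -- first order estimate of g
    have hg1 : ∀ w : Fin n → ℂ, ‖w‖ ≤ ‖v‖ →
        ‖g (z + w) - g z - h p w‖ ≤ K2 * (‖z - p‖ + ‖v‖) * ‖w‖ := by
      intro w hw
      have hconv : Convex ℝ (closedBall (0 : Fin n → ℂ) ‖v‖) := convex_closedBall _ _
      have key := hconv.norm_image_sub_le_of_norm_hasFDerivWithin_le
        (f := fun x => g (z + x) - h p x) (f' := fun x => h (z + x) - h p)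
        (C := K2 * (‖z - p‖ + ‖v‖)) (x := 0) (y := w) ?_ ?_ (by simp) (by simpa using hw)
      · simpa [sub_right_comm] using key
      · intro x hx
        have hx' : ‖x‖ ≤ ‖v‖ := by simpa using hx
        have hd : HasFDerivAt g (h (z + x)) (z + x) :=
          ((hg (z + x) (hb2 (hmem x hx')).2).differentiableAt (by norm_num)).hasFDerivAt
        have hd2 : HasFDerivAt (fun y => g (z + y)) (h (z + x)) x := by
          have := hd.comp x ((hasFDerivAt_id x).const_add z)
          simpa [Function.comp_def] using this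
        exact (hd2.sub (h p).hasFDerivAt).hasFDerivWithinAt
      · intro x hx
        have hx' : ‖x‖ ≤ ‖v‖ := by simpa using hx
        refine (hliph _ (hmem x hx') p hp2).trans ?_
        have : ‖z + x - p‖ ≤ ‖z - p‖ + ‖v‖ := by
          have := norm_add_le (z - p) x
          have e : z - p + x = z + x - p := by abel
          rw [e] at this
          linarith
        gcongr
    have hconv : Convex ℝ (closedBall (0 : Fin n → ℂ) ‖v‖) := convex_closedBall _ _
    have key := hconv.norm_image_sub_le_of_norm_hasFDerivWithin_le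
      (f := fun x => r (z + x) - g z x - h p x x / 2) (f' := fun x => g (z + x) - g z - h p x)
      (C := K2 * (‖z - p‖ + ‖v‖) * ‖v‖) (x := 0) (y := v) ?_ ?_ (by simp) (by simp)
    · have h5 : |r (z + v) - r z - g z v - h p v v / 2| ≤
          K2 * (‖z - p‖ + ‖v‖) * ‖v‖ * ‖v‖ := by
        have e : r (z + v) - r z - g z v - h p v v / 2 =
            r (z + v) - g z v - h p v v / 2 - r z := by ring
        rw [e, ← Real.norm_eq_abs]
        simpa using key
      refine h5.trans ?_
      rw [pow_two, ← mul_assoc]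
      gcongr
      linarith
    · intro x hx
      have hx' : ‖x‖ ≤ ‖v‖ := by simpa using hx
      have hd : HasFDerivAt r (g (z + x)) (z + x) :=
        ((hsm (z + x) (hb2 (hmem x hx')).2).differentiableAt (by norm_num)).hasFDerivAt
      have hd2 : HasFDerivAt (fun y => r (z + y)) (g (z + x)) x := by
        have := hd.comp x ((hasFDerivAt_id x).const_add z)
        simpa [Function.comp_def] using this
      have hd3 : HasFDerivAt (fun y => h p y y / 2) (h p x) x := by
        have h0 : HasFDerivAt (fun y => h p y y) (h p x + (h p).flip x) x := by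
          have := (h p).hasFDerivAt (x := x) |>.clm_apply (hasFDerivAt_id x)
          simpa using this
        have h1 := h0.const_mul (1 / 2 : ℝ)
        have e1 : (fun y => h p y y / 2) = fun y => (1 / 2 : ℝ) * h p y y := by
          funext y; ring
        rw [e1]
        refine h1.congr_fderiv (ContinuousLinearMap.ext fun y => ?_)
        have h2 : h p y x = h p x y := hsymm y x
        change (1 / 2 : ℝ) * (h p x y + h p y x) = h p x y
        rw [h2]
        ring
      exact ((hd2.sub (g z).hasFDerivAt).sub hd3).hasFDerivWithinAt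
    · intro x hx
      have hx' : ‖x‖ ≤ ‖v‖ := by simpa using hx
      refine (hg1 x hx').trans ?_
      gcongr

end Pool.Agent.H68R3.BB
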